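import Pool.Agent.U26Z.EX.Em

set_option autoImplicit false

/-!
# Uniform exponential moments of the number of primes in windows of the length of the logarithm, for large `X`
-/

namespace Pool.Agent.U26Z.EX

open Finset Filter Topology Pool.Agent.U26Z.MX

theorem Wp_le (w : ℕ) : Wp w ≤ 4 ^ w := by
  have h : Wp w = primorial w := by
    unfold Wp primorial
    apply Finset.prod_congr _ fun _ _ => rfl
    ext p
    simp only [mem_filter, mem_Icc, mem_range]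
    constructor
    · rintro ⟨⟨h1, h2⟩, h3⟩
      exact ⟨by omega, h3⟩
    · rintro ⟨h1, h3⟩
      exact ⟨⟨h3.one_lt.le, by omega⟩, h3⟩
  rw [h]
  exact primorial_le_four_pow w

theorem pc_le (n H : ℕ) : MX.pc n H ≤ H := by
  unfold MX.pc
  have := Finset.card_filter_le (Ioc n (n + H)) Nat.Prime
  rwa [Nat.card_Ioc, Nat.add_sub_cancel_left] at this

/-- **all binomial moments at once** -/
theorem binom_all {θ : ℝ} (hθ : 0 < θ) (hθ1 : θ ≤ 1) : ∃ D : ℝ, 0 < D ∧ ∃ X₀ : ℕ, ∀ X : ℕ, X₀ ≤ X → ∀ X' : ℕ, X ≤ X' →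
    ∀ Y : ℕ, (X : ℝ) ^ θ ≤ Y → ∀ k : ℕ,
    ∑ n ∈ Ioc X' (X' + Y), ((MX.pc n ⌊θ / 4 * Real.log X⌋₊).choose k : ℝ) ≤ 24 * D ^ k * Y := by
  obtain ⟨C₁, hC₁, hR⟩ := Rb_le
  obtain ⟨C₂, hC₂, hkap⟩ := kap_lower
  refine ⟨4 * Real.exp 4 * C₁ * C₂, by positivity, ?_⟩
  have tN : Tendsto (fun X : ℕ => (X : ℝ)) atTop atTop := tendsto_natCast_atTop_atTop
  have tL : Tendsto (fun X : ℕ => Real.log (X : ℝ)) atTop atTop := Real.tendsto_log_atTop.comp tN
  have tp : ∀ a : ℝ, 0 < a → Tendsto (fun X : ℕ => (X : ℝ) ^ a) atTop atTop := fun a ha =>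
    (tendsto_rpow_atTop ha).comp tN
  have hev1 : ∀ᶠ X : ℕ in atTop, 10 ≤ θ / 4 * Real.log X := (tL.const_mul_atTop (by positivity)).eventually_ge_atTop 10
  have hev2 : ∀ᶠ X : ℕ in atTop, 4 ≤ (X : ℝ) ^ (θ / 16) := (tp _ (by positivity)).eventually_ge_atTop 4
  have hev3 : ∀ᶠ X : ℕ in atTop, θ / 4 * Real.log X + 2 ≤ (X : ℝ) ^ (θ / 8) := by
    have h1 := ((isLittleO_log_rpow_atTop (show 0 < θ / 8 by positivity)).comp_tendsto tN).bound
      (by positivity : (0 : ℝ) < 1 / (2 * (θ / 4)))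
    filter_upwards [h1, tL.eventually_ge_atTop 1, (tp (θ / 8) (by positivity)).eventually_ge_atTop 4] with X h2 h3 h4
    simp only [Function.comp_def] at h2
    rw [Real.norm_of_nonneg (by positivity), Real.norm_of_nonneg (by positivity)] at h2
    have h5 : θ / 4 * Real.log X ≤ θ / 4 * (1 / (2 * (θ / 4)) * (X : ℝ) ^ (θ / 8)) := by gcongr
    have h6 : θ / 4 * (1 / (2 * (θ / 4)) * (X : ℝ) ^ (θ / 8)) = (X : ℝ) ^ (θ / 8) / 2 := by field_simp
    linarith
  have hev4 : ∀ᶠ X : ℕ in atTop, 3 ≤ (X : ℝ) ^ (1 / 2 : ℝ) := (tp _ (by norm_num)).eventually_ge_atTop 3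
  obtain ⟨X₁, hX₁⟩ := eventually_atTop.1 ((hev1.and hev2).and (hev3.and hev4))
  refine ⟨X₁ + 3, fun X hX X' hX' Y hY k => ?_⟩
  obtain ⟨⟨h1, h2⟩, h3, h4⟩ := hX₁ X (by omega)
  have hX0 : (0 : ℝ) < X := by exact_mod_cast (by omega : 0 < X)
  have hX1 : (1 : ℝ) ≤ X := by exact_mod_cast (by omega : 1 ≤ X)
  obtain ⟨L, hL⟩ : ∃ L, L = Real.log (X : ℝ) := ⟨_, rfl⟩
  rw [← hL] at h1 h3 ⊢
  have hL0 : 0 < L := by
    by_contra hcon
    push Not at hcon
    nlinarith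
  obtain ⟨w, hw⟩ : ∃ w, w = ⌊θ / 4 * L⌋₊ := ⟨_, rfl⟩
  rw [← hw]
  have hw1 : (w : ℝ) ≤ θ / 4 * L := by rw [hw]; exact Nat.floor_le (by positivity)
  have hw9 : 10 ≤ w := by rw [hw]; exact Nat.le_floor (by exact_mod_cast h1)
  have hwr : (10 : ℝ) ≤ w := by exact_mod_cast hw9
  obtain ⟨W, hW⟩ : ∃ W, W = Wp w := ⟨_, rfl⟩
  have hW1 : 1 ≤ W := by rw [hW]; exact Wp_pos w
  have hW0 : (0 : ℝ) < W := by exact_mod_cast hW1
  have hXp : ∀ s : ℝ, (X : ℝ) ^ s = Real.exp (s * L) := fun s => by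
    rw [Real.rpow_def_of_pos hX0, ← hL, mul_comm]
  -- `W ≤ X ^ (3 θ / 8)`
  have hWX : (W : ℝ) ≤ (X : ℝ) ^ (3 * θ / 8) := by
    have h5 : (W : ℝ) ≤ (4 : ℝ) ^ w := by rw [hW]; exact_mod_cast Wp_le w
    refine h5.trans ?_
    have h6 : (4 : ℝ) ^ w = Real.exp (w * Real.log 4) := by
      rw [mul_comm, Real.exp_mul, Real.exp_log (by norm_num), Real.rpow_natCast]
    rw [h6, hXp]
    apply Real.exp_le_exp.2
    have h7 : Real.log 4 ≤ 3 / 2 := by
      have h8 : Real.log 4 = 2 * Real.log 2 := by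
        rw [show (4 : ℝ) = 2 ^ 2 by norm_num, Real.log_pow]
        push_cast
        ring
      have := Real.log_two_lt_d9
      rw [h8]
      linarith
    have h8 : 0 ≤ Real.log 4 := Real.log_nonneg (by norm_num)
    calc (w : ℝ) * Real.log 4 ≤ (θ / 4 * L) * (3 / 2) := by gcongr
      _ = 3 * θ / 8 * L := by ring
  obtain ⟨Q, hQ⟩ : ∃ Q, Q = ⌊(X : ℝ) ^ (θ / 8)⌋₊ := ⟨_, rfl⟩
  have hQ1 : (Q : ℝ) ≤ (X : ℝ) ^ (θ / 8) := by rw [hQ]; exact Nat.floor_le (by positivity)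
  have hQ2 : (X : ℝ) ^ (θ / 8) - 1 < Q := by rw [hQ]; linarith [Nat.lt_floor_add_one ((X : ℝ) ^ (θ / 8))]
  have hQ16 : (X : ℝ) ^ (θ / 16) ≤ Q := by
    have h5 : (X : ℝ) ^ (θ / 8) = (X : ℝ) ^ (θ / 16) * (X : ℝ) ^ (θ / 16) := by
      rw [← Real.rpow_add hX0]
      congr 1
      ring
    nlinarith
  have hQ3 : 3 ≤ Q := by
    have : (3 : ℝ) ≤ Q := by linarith
    exact_mod_cast this
  have hYW : (Y : ℝ) / W < (Y / W : ℕ) + 1 := by
    rw [div_lt_iff₀ hW0]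
    have := Nat.lt_div_mul_add (show 0 < W from hW1) (a := Y)
    have h6 : Y < (Y / W + 1) * W := by
      rw [add_mul, one_mul]
      exact this
    exact_mod_cast h6
  have hmono : ∀ a b : ℝ, a ≤ b → (X : ℝ) ^ a ≤ (X : ℝ) ^ b := fun a b hab =>
    Real.rpow_le_rpow_of_exponent_le hX1 hab
  have hQM : Q ^ 2 ≤ Y / W + 2 := by
    have h5 : (Q : ℝ) ^ 2 ≤ (Y / W : ℕ) + 2 := by
      have h6 : (Q : ℝ) ^ 2 ≤ (X : ℝ) ^ (θ / 4) := by
        calc (Q : ℝ) ^ 2 ≤ ((X : ℝ) ^ (θ / 8)) ^ 2 := by gcongr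
          _ = (X : ℝ) ^ (θ / 4) := by
              rw [← Real.rpow_natCast, ← Real.rpow_mul hX0.le]
              congr 1
              push_cast
              ring
      have h7 : (X : ℝ) ^ (θ / 4) ≤ Y / W := by
        rw [le_div_iff₀ hW0]
        calc (X : ℝ) ^ (θ / 4) * W ≤ (X : ℝ) ^ (θ / 4) * (X : ℝ) ^ (3 * θ / 8) := by gcongr
          _ = (X : ℝ) ^ (5 * θ / 8) := by rw [← Real.rpow_add hX0]; congr 1; ring
          _ ≤ (X : ℝ) ^ θ := hmono _ _ (by linarith)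
          _ ≤ Y := hY
      linarith
    exact_mod_cast h5
  have hwQ : w ≤ Q := by
    have : (w : ℝ) ≤ Q := by linarith
    exact_mod_cast this
  have h2W : 2 * (W : ℝ) + Q ≤ X := by
    have h5 : (W : ℝ) ≤ (X : ℝ) ^ (1 / 2 : ℝ) := hWX.trans (hmono _ _ (by linarith))
    have h6 : (Q : ℝ) ≤ (X : ℝ) ^ (1 / 2 : ℝ) := hQ1.trans (hmono _ _ (by linarith))
    have h7 : (X : ℝ) = (X : ℝ) ^ (1 / 2 : ℝ) * (X : ℝ) ^ (1 / 2 : ℝ) := by
      rw [← Real.rpow_add hX0]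
      norm_num
    have h8 : 3 * (X : ℝ) ^ (1 / 2 : ℝ) ≤ (X : ℝ) ^ (1 / 2 : ℝ) * (X : ℝ) ^ (1 / 2 : ℝ) := by
      apply mul_le_mul_of_nonneg_right h4 (by positivity)
    linarith
  have hQX : Q + 2 * W ≤ X' := by
    have h5 : 2 * W + Q ≤ X := by exact_mod_cast h2W
    omega
  have hWY : 2 * (W : ℝ) ≤ Y := by
    have h5 : 2 * (W : ℝ) ≤ (X : ℝ) ^ (θ / 16) * (X : ℝ) ^ (3 * θ / 8) := by
      calc 2 * (W : ℝ) ≤ (X : ℝ) ^ (θ / 16) * W := by gcongr; linarith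
        _ ≤ _ := by gcongr
    refine h5.trans (le_trans (le_of_eq ?_) ((hmono (7 * θ / 16) θ (by linarith)).trans hY))
    rw [← Real.rpow_add hX0]
    congr 1
    ring
  rcases le_or_gt k w with hkw | hkw
  · have hlogw : 0 < Real.log w := Real.log_pos (by linarith)
    obtain ⟨R, hRdef⟩ : ∃ R : ℝ, R = C₁ * (w / Real.log w) := ⟨_, rfl⟩
    have hR0 : 0 ≤ R := by rw [hRdef]; positivity
    have hb := binom_self k w X' Y Q (by omega) R (fun b => by rw [hRdef]; exact hR w b (by omega)) hQ3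
      (by rw [← hW]; exact hQM) hwQ (by rw [← hW]; exact hQX) (by omega)
    rw [← hW] at hb
    refine hb.trans ?_
    obtain ⟨κ, hκ⟩ : ∃ κ, κ = kap w := ⟨_, rfl⟩
    have hκ0 : 0 < κ := by rw [hκ]; exact kap_pos w
    have hκ1 : κ⁻¹ ≤ C₂ * Real.log w := by rw [hκ]; exact hkap w (by omega)
    have hQpos : (0 : ℝ) < Q := by exact_mod_cast (by omega : 0 < Q)
    have hlogQ : θ / 16 * L ≤ Real.log Q := by
      rw [← Real.log_exp (θ / 16 * L), ← hXp]
      exact Real.log_le_log (by positivity) hQ16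
    have hlogQ0 : 0 < Real.log Q := lt_of_lt_of_le (by positivity) hlogQ
    have hf0 : (0 : ℝ) < k.factorial := by exact_mod_cast Nat.factorial_pos k
    have hmain : Bk k w Q * (R ^ k / k.factorial) ≤ (4 * Real.exp 4 * C₁ * C₂) ^ k := by
      unfold Bk
      rw [← hκ]
      have h5 : Real.exp (4 * (k : ℝ) ^ 2 / w) ≤ Real.exp 4 ^ k := by
        rw [← Real.exp_nat_mul]
        apply Real.exp_le_exp.2
        rw [div_le_iff₀ (by linarith)]
        have : (k : ℝ) ≤ w := by exact_mod_cast hkw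
        have hk0 : (0 : ℝ) ≤ k := Nat.cast_nonneg k
        nlinarith
      have h6 : Real.exp (4 * (k : ℝ) ^ 2 / w) * k.factorial / (κ ^ k * Real.log Q ^ k) * (R ^ k / k.factorial) =
          Real.exp (4 * (k : ℝ) ^ 2 / w) * (κ⁻¹ * R / Real.log Q) ^ k := by
        rw [div_pow, mul_pow, inv_pow]
        have : κ ^ k ≠ 0 := (pow_pos hκ0 k).ne'
        have : Real.log Q ^ k ≠ 0 := (pow_pos hlogQ0 k).ne'
        field_simp
      rw [h6]
      have h7 : κ⁻¹ * R / Real.log Q ≤ 4 * C₁ * C₂ := by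
        rw [div_le_iff₀ hlogQ0, hRdef]
        calc κ⁻¹ * (C₁ * (w / Real.log w)) ≤ (C₂ * Real.log w) * (C₁ * (w / Real.log w)) := by gcongr
          _ = C₁ * C₂ * w := by field_simp
          _ ≤ C₁ * C₂ * (θ / 4 * L) := by gcongr
          _ = 4 * C₁ * C₂ * (θ / 16 * L) := by ring
          _ ≤ 4 * C₁ * C₂ * Real.log Q := by gcongr
      calc Real.exp (4 * (k : ℝ) ^ 2 / w) * (κ⁻¹ * R / Real.log Q) ^ k
          ≤ Real.exp 4 ^ k * (4 * C₁ * C₂) ^ k := by gcongr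
        _ = (4 * Real.exp 4 * C₁ * C₂) ^ k := by rw [← mul_pow]; congr 1; ring
    have hM : (W : ℝ) * ((Y / W + 2 : ℕ) : ℝ) ≤ 2 * Y := by
      have h6 : ((Y / W : ℕ) : ℝ) ≤ Y / W := Nat.cast_div_le
      push_cast
      calc (W : ℝ) * ((Y / W : ℕ) + 2) ≤ W * (Y / W + 2) := by gcongr
        _ = Y + 2 * W := by field_simp
        _ ≤ _ := by linarith
    have hnn : 0 ≤ Bk k w Q * (R ^ k / k.factorial) := by
      have := Bk_nonneg k w Q
      positivity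
    calc (W : ℝ) * (12 * ((Y / W + 2 : ℕ) : ℝ) * Bk k w Q * (R ^ k / k.factorial))
        = 12 * (W * ((Y / W + 2 : ℕ) : ℝ)) * (Bk k w Q * (R ^ k / k.factorial)) := by ring
      _ ≤ 12 * (2 * Y) * (4 * Real.exp 4 * C₁ * C₂) ^ k := by gcongr
      _ = _ := by ring
  · have h5 : ∑ n ∈ Ioc X' (X' + Y), ((MX.pc n w).choose k : ℝ) = 0 := by
      apply Finset.sum_eq_zero
      intro n _
      rw [Nat.choose_eq_zero_of_lt (lt_of_le_of_lt (pc_le n w) hkw)]
      simp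
    rw [h5]
    positivity

/-- the exponential moment at the basic length -/
theorem em_base {θ : ℝ} (hθ : 0 < θ) (hθ1 : θ ≤ 1) : ∃ s : ℝ, 0 < s ∧ ∃ X₀ : ℕ, ∀ X : ℕ, X₀ ≤ X → ∀ X' : ℕ, X ≤ X' →
    ∀ Y : ℕ, (X : ℝ) ^ θ ≤ Y →
    ∑ n ∈ Ioc X' (X' + Y), Real.exp (s * MX.pc n ⌊θ / 4 * Real.log X⌋₊) ≤ 48 * Y := by
  obtain ⟨D, hD, X₀, h⟩ := binom_all hθ hθ1
  refine ⟨Real.log (1 + 1 / (2 * D)), Real.log_pos (by
    have : 0 < 1 / (2 * D) := by positivity
    linarith), X₀, fun X hX X' hX' Y hY => ?_⟩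
  obtain ⟨w, hw⟩ : ∃ w, w = ⌊θ / 4 * Real.log (X : ℝ)⌋₊ := ⟨_, rfl⟩
  have hk := h X hX X' hX' Y hY
  rw [← hw] at hk ⊢
  have h1 : ∀ n : ℕ, Real.exp (Real.log (1 + 1 / (2 * D)) * MX.pc n w) =
      ∑ k ∈ range (w + 1), (1 / (2 * D)) ^ k * ((MX.pc n w).choose k : ℝ) := by
    intro n
    rw [mul_comm, Real.exp_nat_mul, Real.exp_log (by positivity), add_comm, add_pow]
    have h2 : ∑ m ∈ range (MX.pc n w + 1), (1 / (2 * D)) ^ m * 1 ^ (MX.pc n w - m) * ((MX.pc n w).choose m : ℝ) =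
        ∑ m ∈ range (MX.pc n w + 1), (1 / (2 * D)) ^ m * ((MX.pc n w).choose m : ℝ) := by
      refine Finset.sum_congr rfl fun m _ => ?_
      rw [one_pow, mul_one]
    rw [h2]
    apply Finset.sum_subset
    · intro m hm
      rw [mem_range] at hm ⊢
      have := pc_le n w
      omega
    · intro m _ hm
      rw [mem_range, not_lt] at hm
      rw [Nat.choose_eq_zero_of_lt (by omega), Nat.cast_zero, mul_zero]
  calc ∑ n ∈ Ioc X' (X' + Y), Real.exp (Real.log (1 + 1 / (2 * D)) * MX.pc n w)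
      = ∑ n ∈ Ioc X' (X' + Y), ∑ k ∈ range (w + 1), (1 / (2 * D)) ^ k * ((MX.pc n w).choose k : ℝ) :=
        Finset.sum_congr rfl fun n _ => h1 n
    _ = ∑ k ∈ range (w + 1), (1 / (2 * D)) ^ k * ∑ n ∈ Ioc X' (X' + Y), ((MX.pc n w).choose k : ℝ) := by
        rw [Finset.sum_comm]
        exact Finset.sum_congr rfl fun k _ => by rw [Finset.mul_sum]
    _ ≤ ∑ k ∈ range (w + 1), (1 / (2 * D)) ^ k * (24 * D ^ k * Y) := by
        refine Finset.sum_le_sum fun k _ => ?_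
        exact mul_le_mul_of_nonneg_left (hk k) (by positivity)
    _ = 24 * Y * ∑ k ∈ range (w + 1), (1 / 2 : ℝ) ^ k := by
        rw [Finset.mul_sum]
        refine Finset.sum_congr rfl fun k _ => ?_
        rw [div_pow, div_pow, mul_pow]
        field_simp
    _ ≤ 24 * Y * 2 := by
        apply mul_le_mul_of_nonneg_left _ (by positivity)
        have h3 := sum_geometric_two_le (w + 1)
        exact h3
    _ = _ := by ring

theorem pc_add (n a b : ℕ) : MX.pc n (a + b) = MX.pc n a + MX.pc (n + a) b := by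
  classical
  unfold MX.pc
  rw [← add_assoc, ← Finset.Ioc_union_Ioc_eq_Ioc (show n ≤ n + a by omega) (show n + a ≤ n + a + b by omega),
    filter_union, card_union_of_disjoint]
  exact disjoint_filter_filter (Finset.Ioc_disjoint_Ioc_of_le le_rfl)

theorem pc_mono (n : ℕ) {a b : ℕ} (h : a ≤ b) : MX.pc n a ≤ MX.pc n b := by
  obtain ⟨c, rfl⟩ := Nat.exists_eq_add_of_le h
  rw [pc_add]
  omega

theorem pc_steps (n w J : ℕ) : MX.pc n (J * w) = ∑ i ∈ range J, MX.pc (n + i * w) w := by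
  induction J with
  | zero => simp [MX.pc]
  | succ J ih => rw [sum_range_succ, ← ih, add_mul, one_mul, pc_add]

/-- **uniform exponential moments** for all lengths -/
theorem em {θ : ℝ} (hθ : 0 < θ) (hθ1 : θ ≤ 1) : ∃ s : ℝ, 0 < s ∧ ∃ X₀ : ℕ, ∀ X : ℕ, X₀ ≤ X → ∀ X' : ℕ, X ≤ X' →
    ∀ Y : ℕ, (X : ℝ) ^ θ ≤ Y → ∀ H : ℕ, θ / 4 * Real.log X ≤ H →
    ∑ n ∈ Ioc X' (X' + Y), Real.exp (s * (MX.pc n H * Real.log X / H)) ≤ 48 * Y := by
  obtain ⟨s, hs, X₁, h⟩ := em_base hθ hθ1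
  have tN : Tendsto (fun X : ℕ => (X : ℝ)) atTop atTop := tendsto_natCast_atTop_atTop
  have tL : Tendsto (fun X : ℕ => Real.log (X : ℝ)) atTop atTop := Real.tendsto_log_atTop.comp tN
  obtain ⟨X₂, hX₂⟩ := eventually_atTop.1 ((tL.const_mul_atTop (show 0 < θ / 8 by positivity)).eventually_ge_atTop 1)
  refine ⟨s * θ / 16, by positivity, max X₁ X₂, fun X hX X' hX' Y hY H hH => ?_⟩
  have hk := h X ((le_max_left _ _).trans hX)
  have h8 := hX₂ X ((le_max_right _ _).trans hX)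
  obtain ⟨L, hL⟩ : ∃ L, L = Real.log (X : ℝ) := ⟨_, rfl⟩
  rw [← hL] at hk h8 hH ⊢
  obtain ⟨w, hw⟩ : ∃ w, w = ⌊θ / 4 * L⌋₊ := ⟨_, rfl⟩
  rw [← hw] at hk
  have hL0 : 0 < L := by
    by_contra hcon
    push Not at hcon
    nlinarith
  have hw1 : (w : ℝ) ≤ θ / 4 * L := by rw [hw]; exact Nat.floor_le (by positivity)
  have hw2 : θ / 4 * L < w + 1 := by rw [hw]; exact Nat.lt_floor_add_one _
  have hw8 : θ / 8 * L ≤ w := by linarith
  have hwpos : (0 : ℝ) < w := lt_of_lt_of_le (by positivity) hw8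
  have hwN : 0 < w := by exact_mod_cast hwpos
  have hHpos : (0 : ℝ) < H := lt_of_lt_of_le (by positivity) hH
  have hwH : w ≤ H := by
    have : (w : ℝ) ≤ H := hw1.trans hH
    exact_mod_cast this
  obtain ⟨J, hJ⟩ : ∃ J, J = H / w + 1 := ⟨_, rfl⟩
  have hJ0 : 0 < J := by rw [hJ]; exact Nat.succ_pos _
  have hJr : (0 : ℝ) < J := by exact_mod_cast hJ0
  have hHJ : H ≤ J * w := by
    rw [hJ, add_mul, one_mul]
    exact (Nat.lt_div_mul_add hwN).le
  have hJH : (J : ℝ) * w ≤ 2 * H := by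
    have h1 : J * w ≤ H + w := by
      rw [hJ, add_mul, one_mul]
      have := Nat.div_mul_le_self H w
      omega
    have h2 : (J : ℝ) * w ≤ H + w := by exact_mod_cast h1
    have h3 : (w : ℝ) ≤ H := by exact_mod_cast hwH
    linarith
  have hpt : ∀ n : ℕ, Real.exp (s * θ / 16 * (MX.pc n H * L / H)) ≤
      ∑ i ∈ range J, 1 / (J : ℝ) * Real.exp (s * MX.pc (n + i * w) w) := by
    intro n
    have h1 : s * θ / 16 * (MX.pc n H * L / H) ≤ ∑ i ∈ range J, 1 / (J : ℝ) * (s * MX.pc (n + i * w) w) := by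
      have h2 : (MX.pc n H : ℝ) ≤ ∑ i ∈ range J, (MX.pc (n + i * w) w : ℝ) := by
        have h3 := (pc_mono n hHJ).trans (le_of_eq (pc_steps n w J))
        exact_mod_cast h3
      have h4 : ∑ i ∈ range J, 1 / (J : ℝ) * (s * MX.pc (n + i * w) w) = s / J * ∑ i ∈ range J, (MX.pc (n + i * w) w : ℝ) := by
        rw [Finset.mul_sum]
        exact Finset.sum_congr rfl fun i _ => by ring
      rw [h4]
      calc s * θ / 16 * (MX.pc n H * L / H) = s * (θ / 8 * L) / (2 * H) * MX.pc n H := by field_simp; ring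
        _ ≤ s * w / (2 * H) * MX.pc n H := by gcongr
        _ ≤ s / J * MX.pc n H := by
            apply mul_le_mul_of_nonneg_right _ (Nat.cast_nonneg _)
            rw [div_le_div_iff₀ (by positivity) hJr]
            calc s * w * J = s * (J * w) := by ring
              _ ≤ s * (2 * H) := by gcongr
        _ ≤ _ := by gcongr
    refine (Real.exp_le_exp.2 h1).trans ?_
    have h5 := convexOn_exp.map_sum_le (t := range J) (w := fun _ => 1 / (J : ℝ))
      (p := fun i => s * (MX.pc (n + i * w) w : ℝ)) (fun _ _ => by positivity)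
      (by rw [Finset.sum_const, Finset.card_range, nsmul_eq_mul]; field_simp) (fun _ _ => Set.mem_univ _)
    simp only [smul_eq_mul] at h5
    exact h5
  calc ∑ n ∈ Ioc X' (X' + Y), Real.exp (s * θ / 16 * (MX.pc n H * L / H))
      ≤ ∑ n ∈ Ioc X' (X' + Y), ∑ i ∈ range J, 1 / (J : ℝ) * Real.exp (s * MX.pc (n + i * w) w) :=
        Finset.sum_le_sum fun n _ => hpt n
    _ = ∑ i ∈ range J, 1 / (J : ℝ) * ∑ n ∈ Ioc (X' + i * w) (X' + i * w + Y), Real.exp (s * MX.pc n w) := by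
        rw [Finset.sum_comm]
        refine Finset.sum_congr rfl fun i _ => ?_
        rw [← Finset.mul_sum]
        congr 1
        apply Finset.sum_bij (fun n _ => n + i * w)
        · intro n hn
          rw [mem_Ioc] at hn ⊢
          omega
        · intro a _ b _ hab
          simpa using hab
        · intro n hn
          rw [mem_Ioc] at hn
          refine ⟨n - i * w, ?_, by omega⟩
          rw [mem_Ioc]
          omega
        · intro n _
          rfl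
    _ ≤ ∑ _i ∈ range J, 1 / (J : ℝ) * (48 * Y) := by
        refine Finset.sum_le_sum fun i _ => ?_
        exact mul_le_mul_of_nonneg_left (hk (X' + i * w) (by omega) Y hY) (by positivity)
    _ = 48 * Y := by
        rw [Finset.sum_const, Finset.card_range, nsmul_eq_mul]
        field_simp

end Pool.Agent.U26Z.EX
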