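import Pool.Agent.U26Z.DX.Long
import Pool.Agent.U26Z.EX.Em2

set_option autoImplicit false

/-!
# The prime number theorem in intervals of length `y ^ 0.5836`
-/

namespace Pool.Agent.U26Z.EX

open Finset Filter Topology Pool.Agent.H39x.LP Pool.Agent.U26Z.DX

theorem longg {δ D : ℝ} (hδ : 0 < δ) (hD : 0 < D) : ∀ᶠ y : ℝ in atTop, ∀ H : ℝ, y ^ (0.5836 : ℝ) ≤ H → H ≤ D * y →
    |density y H - 1| ≤ δ := by
  obtain ⟨C, X₀, hC, hpc⟩ := pcount
  obtain ⟨E, hE⟩ : ∃ E, E = Real.log (1 + D) := ⟨_, rfl⟩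
  have hE0 : 0 ≤ E := by rw [hE]; exact Real.log_nonneg (by linarith)
  have hp1 := Real.tendsto_log_atTop.eventually
    (Pool.Agent.Q278.KS.ev_poly (8 * (1 + D) ^ (0.5834 : ℝ) + 1) 3 (show (0 : ℝ) < 0.0002 by norm_num))
  filter_upwards [hp1, Real.tendsto_log_atTop.eventually_ge_atTop (max (max E 4) (8 * (2 + E + 4 * C) / δ + 8 / δ)),
    eventually_ge_atTop (max (2 * X₀) 4), (tendsto_rpow_atTop (show (0 : ℝ) < 0.5836 by norm_num)).eventually_ge_atTop (4 / δ)] with y hy1 hy2 hy3 hy4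
  intro H hH1 hH2
  have hy3a : 2 * X₀ ≤ y := (le_max_left _ _).trans hy3
  have hy3b : 4 ≤ y := (le_max_right _ _).trans hy3
  have hy0 : 0 < y := by linarith
  obtain ⟨L, hL⟩ : ∃ L, L = Real.log y := ⟨_, rfl⟩
  rw [← hL] at hy1 hy2
  have hLE : E ≤ L := (le_max_left _ _).trans ((le_max_left _ _).trans hy2)
  have hL4 : 4 ≤ L := (le_max_right _ _).trans ((le_max_left _ _).trans hy2)
  have hLδ : 8 * (2 + E + 4 * C) / δ + 8 / δ ≤ L := (le_max_right _ _).trans hy2
  have hL0 : 0 < L := by linarith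
  have hyp : ∀ s : ℝ, y ^ s = Real.exp (s * L) := fun s => by
    rw [Real.rpow_def_of_pos hy0, ← hL, mul_comm]
  have hH59 : 1 ≤ y ^ (0.5836 : ℝ) := Real.one_le_rpow (by linarith) (by norm_num)
  have hH1' : 1 ≤ H := hH59.trans hH1
  have hH0 : 0 < H := by linarith
  obtain ⟨A, hA⟩ : ∃ A, A = ⌊y⌋₊ := ⟨_, rfl⟩
  obtain ⟨B, hB⟩ : ∃ B, B = ⌊y + H⌋₊ := ⟨_, rfl⟩
  have hA1 : (A : ℝ) ≤ y := by rw [hA]; exact Nat.floor_le hy0.le
  have hA2 : y - 1 < A := by rw [hA]; linarith [Nat.lt_floor_add_one y]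
  have hB1 : (B : ℝ) ≤ y + H := by rw [hB]; exact Nat.floor_le (by positivity)
  have hB2 : y + H - 1 < B := by rw [hB]; linarith [Nat.lt_floor_add_one (y + H)]
  have hAB : A ≤ B := by rw [hA, hB]; exact Nat.floor_le_floor (by linarith)
  obtain ⟨m, hm⟩ : ∃ m, m = min H y := ⟨_, rfl⟩
  have hm1 : m ≤ H := by rw [hm]; exact min_le_left _ _
  have hm2 : m ≤ y := by rw [hm]; exact min_le_right _ _
  have hm3 : y ^ (0.5836 : ℝ) ≤ m := by
    rw [hm]
    refine le_min hH1 ?_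
    calc y ^ (0.5836 : ℝ) ≤ y ^ (1 : ℝ) := Real.rpow_le_rpow_of_exponent_le (by linarith) (by norm_num)
      _ = y := Real.rpow_one y
  have hm0 : 0 < m := lt_of_lt_of_le (by positivity) hm3
  obtain ⟨s, hs⟩ : ∃ s, s = ⌊m / L ^ 3⌋₊ := ⟨_, rfl⟩
  have hs1 : (s : ℝ) ≤ m / L ^ 3 := by rw [hs]; exact Nat.floor_le (by positivity)
  have hs2 : m / L ^ 3 - 1 < s := by rw [hs]; linarith [Nat.lt_floor_add_one (m / L ^ 3)]
  have hone : 1 ≤ y ^ (0.5834 : ℝ) := Real.one_le_rpow (by linarith) (by norm_num)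
  have hDp : 0 < (1 + D) ^ (0.5834 : ℝ) := by positivity
  have hs3 : 8 * (1 + D) ^ (0.5834 : ℝ) * y ^ (0.5834 : ℝ) ≤ s := by
    have h1 : (8 * (1 + D) ^ (0.5834 : ℝ) + 1) * y ^ (0.5834 : ℝ) ≤ m / L ^ 3 := by
      rw [le_div_iff₀ (by positivity)]
      calc (8 * (1 + D) ^ (0.5834 : ℝ) + 1) * y ^ (0.5834 : ℝ) * L ^ 3 =
            ((8 * (1 + D) ^ (0.5834 : ℝ) + 1) * L ^ 3) * y ^ (0.5834 : ℝ) := by ring
        _ ≤ Real.exp (0.0002 * L) * y ^ (0.5834 : ℝ) := by gcongr
        _ = y ^ (0.5836 : ℝ) := by rw [hyp, hyp, ← Real.exp_add]; congr 1; ring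
        _ ≤ m := hm3
    have h2 : (8 * (1 + D) ^ (0.5834 : ℝ) + 1) * y ^ (0.5834 : ℝ) =
      8 * (1 + D) ^ (0.5834 : ℝ) * y ^ (0.5834 : ℝ) + y ^ (0.5834 : ℝ) := by ring
    linarith
  have hspos : (0 : ℝ) < s := lt_of_lt_of_le (by positivity) hs3
  have hsN : 0 < s := by exact_mod_cast hspos
  obtain ⟨K, hK⟩ : ∃ K, K = (B - A) / s := ⟨_, rfl⟩
  have hKs : K * s ≤ B - A := by rw [hK]; exact Nat.div_mul_le_self _ _
  have hKs2 : B - A < K * s + s := by
    rw [hK]
    have := Nat.lt_div_mul_add (a := B - A) hsN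
    linarith
  have hKsB : A + K * s ≤ B := by omega
  -- the pieces
  have hpiece : ∀ k ∈ range K, |pc (A + k * s) (A + k * s + s) * L - s| ≤ s * ((2 + E + 4 * C) / L) := by
    intro k hk
    have hk' : k < K := mem_range.1 hk
    obtain ⟨Ak, hAk⟩ : ∃ Ak, Ak = A + k * s := ⟨_, rfl⟩
    have hk1 : A ≤ Ak := by rw [hAk]; omega
    have hk2 : Ak ≤ B := by
      have : k * s ≤ K * s := Nat.mul_le_mul_right _ hk'.le
      omega
    have hk1' : (A : ℝ) ≤ Ak := by exact_mod_cast hk1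
    have hk2' : (Ak : ℝ) ≤ B := by exact_mod_cast hk2
    have hAy : y / 2 ≤ Ak := by linarith
    have hAk0 : (0 : ℝ) < Ak := by linarith
    have hAD : (Ak : ℝ) ≤ (1 + D) * y := by linarith
    rw [← hAk]
    have hl1 : L - 1 ≤ Real.log Ak := by
      have h1 : Real.log (y / 2) ≤ Real.log Ak := Real.log_le_log (by positivity) hAy
      rw [Real.log_div hy0.ne' (by norm_num), ← hL] at h1
      have := Real.log_two_lt_d9
      linarith
    have hl2 : Real.log Ak ≤ L + E := by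
      have h1 := Real.log_le_log hAk0 hAD
      rw [Real.log_mul (by positivity) hy0.ne', ← hE, ← hL] at h1
      linarith
    obtain ⟨l, hl⟩ : ∃ l, l = Real.log Ak := ⟨_, rfl⟩
    rw [← hl] at hl1 hl2
    have hl0 : 0 < l := by linarith
    have h := hpc Ak (Ak + s) (by linarith) (by
      push_cast
      rw [add_sub_cancel_left]
      refine le_trans ?_ hs3
      rw [mul_assoc, ← Real.mul_rpow (by positivity) hy0.le]
      have := Real.rpow_le_rpow hAk0.le hAD (show (0 : ℝ) ≤ 0.5834 by norm_num)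
      linarith) (by
      push_cast
      rw [add_sub_cancel_left, ← hl]
      refine hs1.trans ?_
      rw [div_le_div_iff₀ (by positivity) hl0]
      calc m * l ≤ y * (2 * L) := by
            apply mul_le_mul hm2 (by linarith) hl0.le hy0.le
        _ ≤ y / 2 * L ^ 3 := by
            have h16 : (4 : ℝ) ^ 2 ≤ L ^ 2 := pow_le_pow_left₀ (by norm_num) hL4 2
            have h3 : y * L * 4 ^ 2 ≤ y * L * L ^ 2 := mul_le_mul_of_nonneg_left h16 (by positivity)
            have h4 : 0 ≤ y * L := by positivity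
            have e1 : y / 2 * L ^ 3 = y * L * L ^ 2 / 2 := by ring
            have e2 : y * (2 * L) = 2 * (y * L) := by ring
            rw [e1, e2]
            linarith
        _ ≤ Ak * L ^ 3 := by gcongr)
    push_cast at h
    rw [add_sub_cancel_left, ← hl] at h
    obtain ⟨p, hp⟩ : ∃ p, p = pc Ak (Ak + s) := ⟨_, rfl⟩
    rw [← hp] at h ⊢
    -- `|p L - s| ≤ |p - s / l| L + |s L / l - s|`
    have e1 : p * L - s = (p - s / l) * L + s * (L / l - 1) := by
      field_simp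
      ring
    have h2 : |L / l - 1| ≤ (2 + E) / L := by
      rw [div_sub_one hl0.ne', abs_div, abs_of_pos hl0, div_le_div_iff₀ hl0 hL0]
      have h3 : |L - l| ≤ 1 + E := by
        rw [abs_le]
        constructor <;> linarith
      have h4 : L ≤ 2 * l - 2 + L := by linarith
      rcases le_total L l with h5 | h5
      · calc |L - l| * L ≤ (1 + E) * l := by
              apply mul_le_mul h3 h5 hL0.le (by linarith)
          _ ≤ (2 + E) * l := by gcongr; linarith
      · have h6 : |L - l| ≤ 1 := by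
          rw [abs_of_nonneg (by linarith)]
          linarith
        calc |L - l| * L ≤ 1 * L := by gcongr
          _ ≤ 2 * l := by linarith
          _ ≤ (2 + E) * l := by gcongr; linarith
    have h3 : |p - s / l| * L ≤ s * (4 * C / L) := by
      calc |p - s / l| * L ≤ C * (s / l ^ 2) * L := by gcongr
        _ ≤ C * (s / (L / 2) ^ 2) * L := by
            gcongr
            linarith
        _ = s * (4 * C / L) := by field_simp; ring
    calc |p * L - s| ≤ |(p - s / l) * L| + |s * (L / l - 1)| := by rw [e1]; exact abs_add_le _ _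
      _ = |p - s / l| * L + s * |L / l - 1| := by rw [abs_mul, abs_mul, abs_of_pos hL0, abs_of_pos hspos]
      _ ≤ s * (4 * C / L) + s * ((2 + E) / L) := by gcongr
      _ = _ := by ring
  -- the sum
  obtain ⟨δ₁, hδ₁⟩ : ∃ δ₁, δ₁ = (2 + E + 4 * C) / L := ⟨_, rfl⟩
  have hδ₁0 : 0 ≤ δ₁ := by rw [hδ₁]; positivity
  have hsum : |pc A (A + K * s) * L - (K * s : ℕ)| ≤ (K * s : ℕ) * δ₁ := by
    rw [DX.pc_steps, sum_mul]
    have e : ((K * s : ℕ) : ℝ) = ∑ k ∈ range K, (s : ℝ) := by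
      rw [sum_const, card_range, nsmul_eq_mul]
      push_cast
      ring
    rw [e, ← sum_sub_distrib, sum_mul]
    refine (abs_sum_le_sum_abs _ _).trans (sum_le_sum fun k hk => ?_)
    rw [hδ₁]
    exact hpiece k hk
  have hKs' : ((K * s : ℕ) : ℝ) ≤ (B : ℝ) - A := by
    have : ((K * s : ℕ) : ℝ) ≤ ((B - A : ℕ) : ℝ) := by exact_mod_cast hKs
    rwa [Nat.cast_sub hAB] at this
  have hKs2' : (B : ℝ) - A ≤ ((K * s : ℕ) : ℝ) + s := by
    have : ((B - A : ℕ) : ℝ) ≤ ((K * s + s : ℕ) : ℝ) := by exact_mod_cast hKs2.le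
    rw [Nat.cast_sub hAB] at this
    push_cast at this ⊢
    linarith
  have hrem : pc (A + K * s) B ≤ s := by
    refine (DX.pc_le hKsB).trans ?_
    push_cast at hKs2' ⊢
    linarith
  have hrem0 := pc_nn (A + K * s) B
  have hN := DX.pc_add (A := A) (B := A + K * s) (C := B) (by omega) hKsB
  have hs4 : s * (L + 1) ≤ 2 * H / L := by
    calc (s : ℝ) * (L + 1) ≤ m / L ^ 3 * (2 * L) := by
          apply mul_le_mul hs1 (by linarith) (by linarith) (by positivity)
      _ ≤ H / L ^ 3 * (2 * L) := by gcongr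
      _ = 2 * H / L * (1 / L) := by field_simp
      _ ≤ 2 * H / L * 1 := by
          gcongr
          rw [div_le_one hL0]
          linarith
      _ = _ := mul_one _
  have hfin : |pc A B * L - H| ≤ δ * H := by
    obtain ⟨Q, hQ⟩ : ∃ Q : ℝ, Q = ((K * s : ℕ) : ℝ) := ⟨_, rfl⟩
    rw [← hQ] at hsum hKs' hKs2'
    obtain ⟨S, hS⟩ : ∃ S, S = pc A (A + K * s) := ⟨_, rfl⟩
    obtain ⟨R, hR⟩ : ∃ R, R = pc (A + K * s) B := ⟨_, rfl⟩
    rw [← hS] at hsum hN
    rw [← hR] at hrem hrem0 hN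
    rw [hN]
    have hQH : Q ≤ 2 * H := by linarith
    have h1 : Q * δ₁ ≤ 2 * H * δ₁ := by gcongr
    have h2 : δ₁ ≤ δ / 8 := by
      rw [hδ₁, div_le_iff₀ hL0]
      have h3 : 8 * (2 + E + 4 * C) / δ ≤ L := by
        have : 0 ≤ 8 / δ := by positivity
        linarith
      rw [div_le_iff₀ hδ] at h3
      linarith
    have h3 : 2 * H / L ≤ δ / 4 * H := by
      rw [div_le_iff₀ hL0]
      have h4 : 8 / δ ≤ L := by
        have : 0 ≤ 8 * (2 + E + 4 * C) / δ := by positivity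
        linarith
      rw [div_le_iff₀ hδ] at h4
      have h5 : 8 * H ≤ (L * δ) * H := mul_le_mul_of_nonneg_right h4 hH0.le
      have e1 : δ / 4 * H * L = (L * δ) * H / 4 := by ring
      rw [e1]
      linarith
    have h4 : 1 ≤ δ / 4 * H := by
      have h5 : 4 / δ ≤ H := hy4.trans hH1
      rw [div_le_iff₀ hδ] at h5
      linarith
    have h5 : R * L ≤ s * L := by gcongr
    have h6 : 0 ≤ R * L := by positivity
    have h7 : 2 * H * δ₁ ≤ δ / 4 * H := by
      calc 2 * H * δ₁ ≤ 2 * H * (δ / 8) := mul_le_mul_of_nonneg_left h2 (by linarith)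
        _ = δ / 4 * H := by ring
    obtain ⟨h8, h9⟩ := abs_le.1 hsum
    have e1 : (S + R) * L = S * L + R * L := by ring
    have e2 : s * (L + 1) = s * L + s := by ring
    rw [e2] at hs4
    rw [e1, abs_le]
    have h10 : 0 ≤ (s : ℝ) * L := by positivity
    constructor
    · linarith
    · linarith
  unfold density
  have e : (primesIn y H : ℝ) = pc A B := by
    rw [hA, hB]
    rfl
  rw [e, ← hL]
  have e2 : pc A B * L / H - 1 = (pc A B * L - H) / H := by field_simp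
  rw [e2, abs_div, abs_of_pos hH0, div_le_iff₀ hH0]
  exact hfin

end Pool.Agent.U26Z.EX
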