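import Mathlib

set_option autoImplicit false

/-!
# Chernoff's bound for functions of the position of independent uniform points in a grid, and the union over all parameters
-/

namespace Pool.Agent.U26Z.EX

open Finset Filter Topology MeasureTheory ProbabilityTheory
open scoped ENNReal

theorem meas_g (Y : ℕ) (f : ℕ → ℝ) : Measurable (fun t : ℝ => f ⌊t * Y⌋₊) :=
  (measurable_from_nat (f := f)).comp (Nat.measurable_floor.comp (measurable_id.mul_const (Y : ℝ)))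

theorem integral_grid (Y : ℕ) (hY : 0 < Y) (F : ℕ → ℝ) :
    ∫ t in Set.Icc (0 : ℝ) 1, F ⌊t * Y⌋₊ = (∑ i ∈ range Y, F i) / Y := by
  have hY0 : (0 : ℝ) < Y := by exact_mod_cast hY
  rw [integral_Icc_eq_integral_Ico]
  have h1 : ∫ t in Set.Ico (0 : ℝ) 1, F ⌊t * Y⌋₊ =
      ∫ t in Set.Ico (0 : ℝ) 1, ∑ i ∈ range Y, (Set.Ico ((i : ℝ) / Y) ((i + 1 : ℝ) / Y)).indicator (fun _ => F i) t := by
    apply setIntegral_congr_fun measurableSet_Ico
    intro t ht
    show F ⌊t * Y⌋₊ = ∑ i ∈ range Y, (Set.Ico ((i : ℝ) / Y) ((i + 1 : ℝ) / Y)).indicator (fun _ => F i) t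
    have h2 : ⌊t * Y⌋₊ ∈ range Y := by
      rw [mem_range, Nat.floor_lt (by have := ht.1; positivity)]
      nlinarith [ht.2]
    rw [Finset.sum_eq_single_of_mem _ h2]
    · rw [Set.indicator_of_mem]
      rw [Set.mem_Ico, div_le_iff₀ hY0, lt_div_iff₀ hY0]
      exact ⟨Nat.floor_le (by have := ht.1; positivity), Nat.lt_floor_add_one _⟩
    · intro b _ hb
      rw [Set.indicator_of_notMem]
      intro hmem
      rw [Set.mem_Ico, div_le_iff₀ hY0, lt_div_iff₀ hY0] at hmem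
      apply hb
      symm
      rw [Nat.floor_eq_iff (by have := ht.1; positivity)]
      exact hmem
  rw [h1, integral_finset_sum]
  · rw [Finset.sum_div]
    refine Finset.sum_congr rfl fun i hi => ?_
    rw [mem_range] at hi
    rw [integral_indicator measurableSet_Ico, Measure.restrict_restrict measurableSet_Ico, setIntegral_const,
      Set.inter_eq_left.2, smul_eq_mul, measureReal_def, Real.volume_Ico]
    · rw [ENNReal.toReal_ofReal]
      · field_simp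
        ring
      · rw [div_sub_div_same]
        simp
    · intro t ht
      rw [Set.mem_Ico, div_le_iff₀ hY0, lt_div_iff₀ hY0] at ht
      rw [Set.mem_Ico]
      have hi' : (i : ℝ) + 1 ≤ Y := by exact_mod_cast hi
      have hi0 : (0 : ℝ) ≤ i := Nat.cast_nonneg i
      constructor
      · by_contra hcon
        push Not at hcon
        nlinarith
      · by_contra hcon
        push Not at hcon
        nlinarith
  · intro i _
    apply Integrable.indicator _ measurableSet_Ico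
    exact integrable_const _

theorem chern {Ω : Type*} [MeasurableSpace Ω] {P : Measure Ω} [IsProbabilityMeasure P] {lam : ℕ → Ω → ℝ}
    (hm : ∀ j, Measurable (lam j)) (hi : iIndepFun lam P) (hu : ∀ j, P.map (lam j) = volume.restrict (Set.Icc 0 1))
    (Y : ℕ) (hY : 0 < Y) (f : ℕ → ℝ) {ρ : ℝ} (hρ : ∑ i ∈ range Y, Real.exp (f i) ≤ ρ * Y) (m : ℕ) :
    P.real {ω | 0 ≤ ∑ j ∈ range m, f ⌊lam j ω * Y⌋₊} ≤ ρ ^ m := by
  have hY0 : (0 : ℝ) < Y := by exact_mod_cast hY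
  have hg := meas_g Y f
  have hge : Measurable (fun t : ℝ => Real.exp (1 * f ⌊t * Y⌋₊)) := (Real.measurable_exp.comp (hg.const_mul 1))
  have hi' : iIndepFun (fun j => (fun t : ℝ => f ⌊t * Y⌋₊) ∘ lam j) P := hi.comp _ (fun _ => hg)
  have hm' : ∀ j, Measurable ((fun t : ℝ => f ⌊t * Y⌋₊) ∘ lam j) := fun j => hg.comp (hm j)
  have hint0 : Integrable (fun t : ℝ => Real.exp (1 * f ⌊t * Y⌋₊)) (volume.restrict (Set.Icc (0 : ℝ) 1)) := by
    apply Integrable.of_bound hge.aestronglyMeasurable (∑ i ∈ range (Y + 1), Real.exp (1 * f i))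
    filter_upwards [ae_restrict_mem measurableSet_Icc] with t ht
    rw [Real.norm_of_nonneg (Real.exp_pos _).le]
    apply Finset.single_le_sum (f := fun i => Real.exp (1 * f i)) (fun i _ => (Real.exp_pos _).le)
    rw [mem_range, Nat.lt_succ_iff]
    apply Nat.floor_le_of_le
    nlinarith [ht.2]
  have hint : ∀ j, Integrable (fun ω => Real.exp (1 * ((fun t : ℝ => f ⌊t * Y⌋₊) ∘ lam j) ω)) P := by
    intro j
    have h1 := hint0
    rw [← hu j] at h1
    exact h1.comp_measurable (hm j)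
  have hmgf : ∀ j, mgf ((fun t : ℝ => f ⌊t * Y⌋₊) ∘ lam j) P 1 ≤ ρ := by
    intro j
    have h1 : mgf ((fun t : ℝ => f ⌊t * Y⌋₊) ∘ lam j) P 1 = ∫ t in Set.Icc (0 : ℝ) 1, Real.exp (1 * f ⌊t * Y⌋₊) := by
      rw [← hu j, integral_map (hm j).aemeasurable hge.aestronglyMeasurable]
      rfl
    rw [h1, integral_grid Y hY (fun i => Real.exp (1 * f i)), div_le_iff₀ hY0]
    simpa using hρ
  have h2 := measure_ge_le_exp_mul_mgf (μ := P) (X := ∑ j ∈ range m, (fun t : ℝ => f ⌊t * Y⌋₊) ∘ lam j) 0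
    (zero_le_one) (hi'.integrable_exp_mul_sum hm' fun j _ => hint j)
  rw [hi'.mgf_sum hm'] at h2
  have h3 : {ω | 0 ≤ ∑ j ∈ range m, f ⌊lam j ω * Y⌋₊} =
      {ω | 0 ≤ (∑ j ∈ range m, (fun t : ℝ => f ⌊t * Y⌋₊) ∘ lam j) ω} := by
    ext ω
    simp only [Set.mem_setOf_eq, Finset.sum_apply, Function.comp_apply]
  rw [h3]
  refine h2.trans ?_
  rw [mul_zero, Real.exp_zero, one_mul]
  calc ∏ j ∈ range m, mgf ((fun t : ℝ => f ⌊t * Y⌋₊) ∘ lam j) P 1 ≤ ∏ _j ∈ range m, ρ :=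
        Finset.prod_le_prod (fun j _ => mgf_nonneg) fun j _ => hmgf j
    _ = ρ ^ m := by rw [Finset.prod_const, Finset.card_range]

/-- **all parameters at once** -/
theorem bc_all {Ω : Type*} [MeasurableSpace Ω] {P : Measure Ω} [IsProbabilityMeasure P] {lam : ℕ → Ω → ℝ}
    (hm : ∀ j, Measurable (lam j)) (hi : iIndepFun lam P) (hu : ∀ j, P.map (lam j) = volume.restrict (Set.Icc 0 1))
    {ι : Type*} (T : ℕ → Finset ι) (hT : ∀ X, (T X).card ≤ (X + 1) ^ 2) (Yf : ι → ℕ) (F : ℕ → ι → ℕ → ℝ) {c A : ℝ}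
    (hc : 0 < c) (hA : 4 ≤ c * A) (X₀ : ℕ)
    (hF : ∀ X, X₀ ≤ X → ∀ i ∈ T X, 0 < Yf i ∧ ∑ a ∈ range (Yf i), Real.exp (F X i a) ≤ Real.exp (-c) * Yf i) :
    ∀ᵐ ω ∂P, ∀ᶠ X : ℕ in atTop, ∀ i ∈ T X, ∀ m : ℕ, A * Real.log X ≤ m →
      ∑ j ∈ range m, F X i ⌊lam j ω * Yf i⌋₊ < 0 := by
  classical
  obtain ⟨ρ, hρ⟩ : ∃ ρ, ρ = Real.exp (-c) := ⟨_, rfl⟩
  have hρ0 : 0 < ρ := by rw [hρ]; exact Real.exp_pos _
  have hρ1 : ρ < 1 := by rw [hρ, Real.exp_lt_one_iff]; linarith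
  have hA0 : 0 < A := by
    by_contra hcon
    push Not at hcon
    nlinarith
  -- the exceptional events
  obtain ⟨E, hE⟩ : ∃ E : ℕ → Set Ω, E = fun X => if X₀ ≤ X ∧ 1 ≤ X then
      ⋃ i ∈ T X, ⋃ k : ℕ, {ω | 0 ≤ ∑ j ∈ range (⌈A * Real.log X⌉₊ + k), F X i ⌊lam j ω * Yf i⌋₊} else ∅ := ⟨_, rfl⟩
  have hgeo : (1 - ENNReal.ofReal ρ)⁻¹ = ENNReal.ofReal ((1 - ρ)⁻¹) := by
    rw [← ENNReal.ofReal_one, ← ENNReal.ofReal_sub _ hρ0.le, ENNReal.ofReal_inv_of_pos (by linarith)]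
  have hPE : ∀ X, P (E X) ≤ ENNReal.ofReal (((X : ℝ) + 1) ^ 2 * ((1 - ρ)⁻¹ * (max (X : ℝ) 1) ^ (-4 : ℝ))) := by
    intro X
    rw [hE]
    simp only
    split_ifs with hX
    · obtain ⟨hX1, hX2⟩ := hX
      have hXr : (1 : ℝ) ≤ X := by exact_mod_cast hX2
      have h1 : ∀ i ∈ T X, P (⋃ k : ℕ, {ω | 0 ≤ ∑ j ∈ range (⌈A * Real.log X⌉₊ + k), F X i ⌊lam j ω * Yf i⌋₊}) ≤
          ENNReal.ofReal ((1 - ρ)⁻¹ * (max (X : ℝ) 1) ^ (-4 : ℝ)) := by
        intro i hiT
        obtain ⟨hY, hsum⟩ := hF X hX1 i hiT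
        rw [← hρ] at hsum
        have h2 : ∀ k : ℕ, P {ω | 0 ≤ ∑ j ∈ range (⌈A * Real.log X⌉₊ + k), F X i ⌊lam j ω * Yf i⌋₊} ≤
            ENNReal.ofReal (ρ ^ ⌈A * Real.log X⌉₊) * ENNReal.ofReal ρ ^ k := by
          intro k
          have h3 := chern hm hi hu (Yf i) hY (F X i) hsum (⌈A * Real.log X⌉₊ + k)
          rw [← ENNReal.ofReal_pow hρ0.le, ← ENNReal.ofReal_mul (by positivity), ← pow_add]
          rw [measureReal_def] at h3
          rw [← ENNReal.ofReal_toReal (measure_ne_top P _)]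
          exact ENNReal.ofReal_le_ofReal h3
        refine (measure_iUnion_le _).trans ((ENNReal.tsum_le_tsum h2).trans ?_)
        rw [ENNReal.tsum_mul_left, ENNReal.tsum_geometric, hgeo, ← ENNReal.ofReal_mul (by positivity)]
        apply ENNReal.ofReal_le_ofReal
        rw [mul_comm]
        apply mul_le_mul_of_nonneg_left _ (by have : 0 < 1 - ρ := by linarith
                                              positivity)
        rw [max_eq_left hXr, hρ, ← Real.exp_nat_mul, Real.rpow_def_of_pos (by linarith)]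
        apply Real.exp_le_exp.2
        have h4 : A * Real.log X ≤ (⌈A * Real.log X⌉₊ : ℝ) := Nat.le_ceil _
        have h5 : 0 ≤ Real.log (X : ℝ) := Real.log_nonneg hXr
        have h6 : 4 * Real.log X ≤ c * A * Real.log X := mul_le_mul_of_nonneg_right hA h5
        nlinarith
      refine (measure_biUnion_finset_le _ _).trans ((Finset.sum_le_card_nsmul _ _ _ h1).trans ?_)
      rw [← ENNReal.ofReal_nsmul, nsmul_eq_mul]
      apply ENNReal.ofReal_le_ofReal
      apply mul_le_mul_of_nonneg_right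
      · exact_mod_cast hT X
      · have : 0 < 1 - ρ := by linarith
        positivity
    · rw [measure_empty]
      exact bot_le
  have hsummable : Summable (fun X : ℕ => ((X : ℝ) + 1) ^ 2 * ((1 - ρ)⁻¹ * (max (X : ℝ) 1) ^ (-4 : ℝ))) := by
    have h1 : Summable (fun X : ℕ => 4 * (1 - ρ)⁻¹ * (X : ℝ) ^ (-2 : ℝ)) :=
      (Real.summable_nat_rpow.2 (by norm_num)).mul_left _
    have h0 : 0 < (1 - ρ)⁻¹ := by
      have : 0 < 1 - ρ := by linarith
      positivity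
    refine Summable.of_norm_bounded_eventually_nat h1 ?_
    filter_upwards [eventually_ge_atTop 1] with X hX
    have hXr : (1 : ℝ) ≤ X := by exact_mod_cast hX
    have hX0 : (0 : ℝ) < X := by linarith
    rw [Real.norm_of_nonneg (by positivity), max_eq_left hXr]
    have h2 : (X : ℝ) ^ (-2 : ℝ) = (X : ℝ) ^ 2 * (X : ℝ) ^ (-4 : ℝ) := by
      rw [← Real.rpow_natCast, ← Real.rpow_add hX0]
      norm_num
    rw [h2]
    calc ((X : ℝ) + 1) ^ 2 * ((1 - ρ)⁻¹ * (X : ℝ) ^ (-4 : ℝ)) ≤ (2 * (X : ℝ)) ^ 2 * ((1 - ρ)⁻¹ * (X : ℝ) ^ (-4 : ℝ)) := by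
          gcongr
          linarith
      _ = _ := by ring
  have hsum : ∑' X, P (E X) ≠ ∞ := by
    have h1 := ENNReal.ofReal_tsum_of_nonneg (f := fun X : ℕ => ((X : ℝ) + 1) ^ 2 * ((1 - ρ)⁻¹ * (max (X : ℝ) 1) ^ (-4 : ℝ)))
      (fun m => by
        have : 0 < 1 - ρ := by linarith
        positivity) hsummable
    refine ne_top_of_le_ne_top ?_ (ENNReal.tsum_le_tsum hPE)
    rw [← h1]
    exact ENNReal.ofReal_ne_top
  filter_upwards [ae_eventually_notMem hsum] with ω hω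
  filter_upwards [hω, eventually_ge_atTop (max X₀ 1)] with X hX hX1 i hiT m hmA
  by_contra hcon
  push Not at hcon
  apply hX
  rw [hE]
  simp only
  rw [if_pos ⟨(le_max_left _ _).trans hX1, (le_max_right _ _).trans hX1⟩]
  simp only [Set.mem_iUnion, Set.mem_setOf_eq]
  have h1 : ⌈A * Real.log X⌉₊ ≤ m := Nat.ceil_le.2 hmA
  refine ⟨i, hiT, m - ⌈A * Real.log X⌉₊, ?_⟩
  rw [Nat.add_sub_cancel' h1]
  exact hcon

end Pool.Agent.U26Z.EX
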