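import Pool.Agent.U26Z.MX.Tail

set_option autoImplicit false

/-!
# Uniform exponential moments of the number of primes in windows of the length of the logarithm
-/

namespace Pool.Agent.U26Z.EX

open Finset Filter Topology Pool.Agent.U26Z.MX

theorem Pw_self (w : ℕ) : Pw w w = ∅ := by
  unfold Pw
  rw [Finset.Ioc_self, Finset.filter_empty]

theorem FT_one (k w : ℕ) (T : Finset ℕ) : FT k w w T = 1 := by
  unfold FT Dc
  rw [Pw_self, Finset.filter_empty, Finset.prod_empty]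

/-- the integers in an interval of length `w` without prime factors up to `w` -/
theorem Rb_le : ∃ C : ℝ, 0 < C ∧ ∀ w b : ℕ, 9 ≤ w → ((Rb w w b).card : ℝ) ≤ C * (w / Real.log w) := by
  classical
  obtain ⟨c0, hc0⟩ : ∃ c0, c0 = Real.exp (-(4 * ((1 : ℕ) : ℝ) ^ 2 / ((2 : ℕ) : ℝ))) * kap 2 ^ 1 := ⟨_, rfl⟩
  have hc0p : 0 < c0 := by rw [hc0]; exact mul_pos (Real.exp_pos _) (pow_pos (kap_pos 2) 1)
  refine ⟨12 * 4 / c0, by positivity, fun w b hw => ?_⟩
  obtain ⟨Q, hQ⟩ : ∃ Q, Q = Nat.sqrt w := ⟨_, rfl⟩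
  have hQ3 : 3 ≤ Q := by rw [hQ, Nat.le_sqrt]; omega
  have hQw : Q ^ 2 ≤ w := by rw [hQ]; exact Nat.sqrt_le' w
  have hQw2 : w < (Q + 1) ^ 2 := by rw [hQ]; exact Nat.lt_succ_sqrt' w
  have hPQ : ∀ l ∈ Pw 2 Q, l.Prime ∧ 2 < l ∧ l ≤ Q := by
    intro l hl
    unfold Pw at hl
    rw [mem_filter, mem_Ioc] at hl
    exact ⟨hl.2, hl.1.1, hl.1.2⟩
  have hQle : Q ≤ w := by nlinarith
  have h1 := sieve w Q (Pw 2 Q) (Il b 1 {0}) (Rb w w b) (fun q hq => (hPQ q hq).1)
    (fun q _ => Finset.filter_subset _ _) (by omega) hQw (Finset.filter_subset _ _)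
    (by
      intro m hm q hq hmem
      unfold Rb at hm
      rw [mem_filter] at hm
      unfold Il at hmem
      rw [mem_filter] at hmem
      obtain ⟨_, t, ht, hd⟩ := hmem
      rw [mem_singleton] at ht
      subst ht
      have h4 := hPQ q hq
      have h3 : q ∣ b + m := by
        rw [Nat.dvd_iff_mod_eq_zero] at hd ⊢
        rw [← hd, one_mul, add_zero, Nat.add_mod_mod]
      have h5 : q ∣ Wp w := Wp_dvd w h4.1 (by omega)
      have h6 : q ∣ 1 := by
        rw [← hm.2]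
        exact Nat.dvd_gcd h5 h3
      exact h4.1.one_lt.ne' (Nat.dvd_one.1 h6))
  have h2 : ∑ s ∈ (Pw 2 Q).powerset.filter (fun s => ∏ l ∈ s, l ≤ Q), ∏ l ∈ s, ((Il b 1 {0} l).card : ℝ) / l =
      Wt (Pw 2 Q) (fun l => ((1 : ℕ) : ℝ) / l) (fun n => fk 0 ((Q : ℝ) / n)) := by
    unfold Wt
    rw [Finset.sum_filter]
    refine Finset.sum_congr rfl fun s hs => ?_
    rw [Finset.mem_powerset] at hs
    have hpos : 0 < ∏ l ∈ s, l := Finset.prod_pos fun q hq => (hPQ q (hs hq)).1.pos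
    have hposr : (0 : ℝ) < ((∏ l ∈ s, l : ℕ) : ℝ) := by exact_mod_cast hpos
    have e1 : ∏ l ∈ s, ((Il b 1 {0} l).card : ℝ) / l = ∏ l ∈ s, ((1 : ℕ) : ℝ) / l := by
      refine Finset.prod_congr rfl fun l hl => ?_
      have h4 := hPQ l (hs hl)
      rw [Il_card h4.1 (Nat.coprime_one_left l) (by
        intro t ht t' ht' htt
        rw [mem_singleton] at ht ht'
        omega), Finset.card_singleton]
    show _ = (∏ l ∈ s, ((1 : ℕ) : ℝ) / l) * fk 0 ((Q : ℝ) / ((∏ l ∈ s, l : ℕ) : ℝ))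
    unfold fk
    by_cases hle : ∏ l ∈ s, l ≤ Q
    · rw [if_pos hle, if_pos, e1]
      · simp
      · rw [le_div_iff₀ hposr, one_mul]
        exact_mod_cast hle
    · rw [if_neg hle, if_neg, mul_zero]
      rw [not_le, div_lt_one hposr]
      exact_mod_cast (not_le.1 hle)
  rw [h2] at h1
  have h4 := G_lower 2 Q le_rfl 1 Q (Nat.cast_nonneg Q) (by linarith)
  have hQr : (1 : ℝ) < Q := by exact_mod_cast (by omega : 1 < Q)
  have hlogQ : 0 < Real.log Q := Real.log_pos hQr
  have e3 : fk 1 (Q : ℝ) = Real.log Q := by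
    unfold fk
    rw [if_pos hQr.le]
    simp
  rw [e3, ← hc0] at h4
  have hw0 : (0 : ℝ) < w := by exact_mod_cast (by omega : 0 < w)
  have hwr : (1 : ℝ) < w := by exact_mod_cast (by omega : 1 < w)
  have hlogw : 0 < Real.log w := Real.log_pos hwr
  -- `log w ≤ 4 log Q`
  have h5 : Real.log w ≤ 4 * Real.log Q := by
    have h6 : (w : ℝ) ≤ (Q : ℝ) ^ 4 := by
      have h7 : w ≤ Q ^ 4 := by
        have h8 : (Q + 1) ^ 2 ≤ (Q ^ 2) ^ 2 := Nat.pow_le_pow_left (by nlinarith) 2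
        have h9 : (Q ^ 2) ^ 2 = Q ^ 4 := by ring
        omega
      exact_mod_cast h7
    have h7 := Real.log_le_log hw0 h6
    rw [Real.log_pow] at h7
    exact_mod_cast h7
  have h6 : ((Rb w w b).card : ℝ) * (c0 * Real.log Q) ≤ 12 * w :=
    (mul_le_mul_of_nonneg_left h4 (Nat.cast_nonneg _)).trans h1
  have h7 : ((Rb w w b).card : ℝ) * (c0 * Real.log w) ≤ 12 * 4 * w := by
    calc ((Rb w w b).card : ℝ) * (c0 * Real.log w) ≤ ((Rb w w b).card : ℝ) * (c0 * (4 * Real.log Q)) := by gcongr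
      _ = 4 * (((Rb w w b).card : ℝ) * (c0 * Real.log Q)) := by ring
      _ ≤ 4 * (12 * w) := by gcongr
      _ = _ := by ring
  calc ((Rb w w b).card : ℝ) ≤ 12 * 4 * w / (c0 * Real.log w) := by
        rw [le_div_iff₀ (by positivity)]
        exact h7
    _ = _ := by field_simp

/-- **the binomial moment, with all parameters, without collisions** -/
theorem binom_self (k w X Y Q : ℕ) (hw : 2 ≤ w) (R : ℝ) (hR : ∀ b : ℕ, ((Rb w w b).card : ℝ) ≤ R)
    (hQ1 : 3 ≤ Q) (hQM : Q ^ 2 ≤ Y / Wp w + 2) (hHQ : w ≤ Q) (hQX : Q + 2 * Wp w ≤ X) (hwX : w < X) :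
    ∑ n ∈ Ioc X (X + Y), ((pc n w).choose k : ℝ) ≤
      (Wp w : ℝ) * (12 * ((Y / Wp w + 2 : ℕ) : ℝ) * Bk k w Q * (R ^ k / k.factorial)) := by
  classical
  obtain ⟨W, hW⟩ : ∃ W, W = Wp w := ⟨_, rfl⟩
  have hW0 : 0 < W := by rw [hW]; exact Wp_pos w
  -- count by classes
  have h1 : ∑ n ∈ Ioc X (X + Y), ((pc n w).choose k : ℝ) =
      ∑ b ∈ range W, ∑ T ∈ powersetCard k (Icc 1 w),
        (((Ioc X (X + Y)).filter (fun n => n % W = b ∧ ∀ t ∈ T, (n + t).Prime)).card : ℝ) := by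
    calc ∑ n ∈ Ioc X (X + Y), ((pc n w).choose k : ℝ)
        = ∑ n ∈ Ioc X (X + Y), ∑ T ∈ powersetCard k (Icc 1 w), if ∀ t ∈ T, (n + t).Prime then (1 : ℝ) else 0 :=
          Finset.sum_congr rfl fun n _ => pc_choose n w k
      _ = ∑ b ∈ range W, ∑ n ∈ (Ioc X (X + Y)).filter (fun n => n % W = b),
            ∑ T ∈ powersetCard k (Icc 1 w), if ∀ t ∈ T, (n + t).Prime then (1 : ℝ) else 0 := by
          symm
          apply Finset.sum_fiberwise_of_maps_to
          intro n _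
          exact mem_range.2 (Nat.mod_lt _ hW0)
      _ = _ := by
          refine Finset.sum_congr rfl fun b _ => ?_
          rw [Finset.sum_comm]
          refine Finset.sum_congr rfl fun T _ => ?_
          rw [← Finset.sum_filter, Finset.sum_const, nsmul_eq_mul, mul_one, Finset.filter_filter]
  rw [h1]
  have h2 : ∀ b ∈ range W, ∑ T ∈ powersetCard k (Icc 1 w),
      (((Ioc X (X + Y)).filter (fun n => n % W = b ∧ ∀ t ∈ T, (n + t).Prime)).card : ℝ) ≤
      12 * ((Y / W + 2 : ℕ) : ℝ) * Bk k w Q * (R ^ k / k.factorial) := by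
    intro b _
    have hsub : powersetCard k (Rb w w b) ⊆ powersetCard k (Icc 1 w) :=
      Finset.powersetCard_mono (Finset.filter_subset _ _)
    have h3 : ∑ T ∈ powersetCard k (Icc 1 w),
        (((Ioc X (X + Y)).filter (fun n => n % W = b ∧ ∀ t ∈ T, (n + t).Prime)).card : ℝ) =
        ∑ T ∈ powersetCard k (Rb w w b),
        (((Ioc X (X + Y)).filter (fun n => n % W = b ∧ ∀ t ∈ T, (n + t).Prime)).card : ℝ) := by
      symm
      apply Finset.sum_subset hsub
      intro T hT hT2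
      rw [mem_powersetCard] at hT hT2
      have h4 : ¬ T ⊆ Rb w w b := fun h => hT2 ⟨h, hT.2⟩
      obtain ⟨t, ht, htn⟩ := Finset.not_subset.1 h4
      unfold Rb at htn
      rw [mem_filter, not_and] at htn
      have h5 := htn (hT.1 ht)
      obtain ⟨p, hp, hpW, hpb⟩ := Nat.Prime.not_coprime_iff_dvd.1 h5
      have hpw : p ≤ w := by
        unfold Wp at hpW
        obtain ⟨q, hq, hpq⟩ := (hp.prime.dvd_finset_prod_iff _).1 hpW
        rw [mem_filter, mem_Icc] at hq
        rw [(Nat.prime_dvd_prime_iff_eq hp hq.2).1 hpq]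
        exact hq.1.2
      rw [Finset.filter_eq_empty_iff.2, Finset.card_empty, Nat.cast_zero]
      rintro n hn ⟨h6, h7⟩
      have h8 := h7 t ht
      have h9 : p ∣ n + t := by
        have h10 : n = W * (n / W) + b := by rw [← h6]; exact (Nat.div_add_mod n W).symm
        rw [h10, add_assoc]
        exact dvd_add ((hW ▸ hpW).mul_right _) hpb
      have h10 := (Nat.prime_dvd_prime_iff_eq hp h8).1 h9
      rw [mem_Ioc] at hn
      omega
    rw [h3]
    have hB := Bk_nonneg k w Q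
    calc ∑ T ∈ powersetCard k (Rb w w b),
        (((Ioc X (X + Y)).filter (fun n => n % W = b ∧ ∀ t ∈ T, (n + t).Prime)).card : ℝ)
        ≤ ∑ T ∈ powersetCard k (Rb w w b), 12 * ((Y / W + 2 : ℕ) : ℝ) * Bk k w Q := by
          refine Finset.sum_le_sum fun T hT => ?_
          have := one_class k w w X Y Q b T hw (hsub hT) hQ1 hQM hHQ hQX
          rw [← hW, FT_one, mul_one] at this
          exact this
      _ = 12 * ((Y / W + 2 : ℕ) : ℝ) * Bk k w Q * ((Rb w w b).card.choose k : ℝ) := by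
          rw [Finset.sum_const, Finset.card_powersetCard, nsmul_eq_mul, mul_comm]
      _ ≤ _ := by
          apply mul_le_mul_of_nonneg_left _ (by positivity)
          have h4 := Nat.choose_le_pow_div (α := ℝ) k (Rb w w b).card
          refine h4.trans ?_
          have := hR b
          gcongr
  rw [← hW]
  refine (Finset.sum_le_sum h2).trans (le_of_eq ?_)
  rw [Finset.sum_const, Finset.card_range, nsmul_eq_mul]

end Pool.Agent.U26Z.EX
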