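import Pool.Agent.U26Z.MX.Tail

/-!
# The largest density of the primes after `n` has exponential tails, in every interval of length `X ^ θ`

`density n H = π(n, H) log n / H`. By the maximal inequality and the Brun-Titchmarsh inequality the proportion of
the integers `n` in `(X, X + X ^ θ]` with `density n H ≥ u` for SOME length `H ≥ K log n` is at most `C / u`. Here it
is shown that it is at most `C exp (-c u)`, in EVERY interval of length `X ^ θ`, where `θ > 0` may be arbitrarily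
small, and `c` can be any number smaller than `θ / 2` if `K` is large. So all but a proportion `ε` of the integers
of every interval of length `X ^ θ` satisfy `π(n, H) ≤ C' log (1 / ε) H / log n` for ALL `H ≥ K log n`
simultaneously.

The proof uses the large sieve for the prime patterns `n + T` with the sharp denominator in dimension `k`
(`Pool.Agent.U26Z.MX.Gs`: `(φ(W)/W log R) ^ k / k!`), the average of the singular series, convexity and the one-sided
maximal inequality.

From the starting files: the large sieve `Pool.Agent.H174R3.D6LS.taskLS`, Mertens' theorem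
(`Pool.Agent.Erdos456.Mert`), the Brun-Titchmarsh inequality (`Pool.Agent.H902R3.C469.bt2`).
-/

set_option autoImplicit false

open Finset Filter Topology

namespace Pool.Agent.U26Z.EX.ExpTails

/-- the number `π(x, H)` of the primes in `(x, x + H]` -/
noncomputable def primesIn (x H : ℝ) : ℕ := ((Ioc ⌊x⌋₊ ⌊x + H⌋₊).filter Nat.Prime).card

/-- `π(x, H) log x / H` -/
noncomputable def density (x H : ℝ) : ℝ := primesIn x H * Real.log x / H

open Classical in
/-- the number of the integers `n` in `(X, X + Y]` for which `π(n, H) log n / H ≥ u` for SOME real `H ≥ K log n` -/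
noncomputable def exceed (K u : ℝ) (X Y : ℕ) : ℕ :=
  ((Ioc X (X + Y)).filter (fun n : ℕ => ∃ H : ℝ, K * Real.log n ≤ H ∧ u ≤ density n H)).card

theorem exceed_eq (K u : ℝ) (X Y : ℕ) : exceed K u X Y = (Pool.Agent.U26Z.MX.Ex K u X Y).card := by
  rfl

/-- (1) For every `θ > 0` and `c < θ / 2` there are `K` and `C` such that for every `u` the following holds for all
large `X`: for every `Y` with `X ^ θ ≤ Y ≤ X`, at most `C exp (-c u) Y` of the integers `n` in `(X, X + Y]` have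
`π(n, H) ≥ u H / log n` for some real `H ≥ K log n`.

(2) For all `θ > 0` and `K > 0` the same holds with this `K` and some `c > 0` and `C`.

(3) For all `θ > 0`, `K > 0` and `q` there is `C` such that for all large `X` the following holds uniformly in `u > 0`:
for every `Y` with `X ^ θ ≤ Y ≤ X`, at most `C u ^ (-q) Y` of the integers `n` in `(X, X + Y]` have
`π(n, H) ≥ u H / log n` for some real `H ≥ K log n`. -/
theorem result :
    (∀ θ c : ℝ, 0 < θ → 0 < c → c < θ / 2 → ∃ K C : ℝ, 0 < K ∧ 0 < C ∧ ∀ u : ℝ, ∀ᶠ X : ℕ in atTop, ∀ Y : ℕ,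
      (X : ℝ) ^ θ ≤ Y → Y ≤ X → (exceed K u X Y : ℝ) ≤ C * Real.exp (-(c * u)) * Y) ∧
    (∀ θ K : ℝ, 0 < θ → 0 < K → ∃ c C : ℝ, 0 < c ∧ 0 < C ∧ ∀ u : ℝ, ∀ᶠ X : ℕ in atTop, ∀ Y : ℕ,
      (X : ℝ) ^ θ ≤ Y → Y ≤ X → (exceed K u X Y : ℝ) ≤ C * Real.exp (-(c * u)) * Y) ∧
    (∀ θ K : ℝ, 0 < θ → 0 < K → ∀ q : ℕ, ∃ C : ℝ, 0 < C ∧ ∀ᶠ X : ℕ in atTop, ∀ Y : ℕ,
      (X : ℝ) ^ θ ≤ Y → Y ≤ X → ∀ u : ℝ, 0 < u → (exceed K u X Y : ℝ) ≤ C / u ^ q * Y) := by
  simp only [exceed_eq]
  refine ⟨fun θ c hθ hc hcθ => ?_, fun θ K hθ hK => ?_, fun θ K hθ hK q => ?_⟩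
  · obtain ⟨K, hK, C, hC, h⟩ := Pool.Agent.U26Z.MX.tail_sharp hθ hc hcθ
    refine ⟨K, C, hK, hC, fun u => ?_⟩
    obtain ⟨X₀, h0⟩ := h u
    exact eventually_atTop.2 ⟨X₀, fun X hX Y h1 h2 => h0 X hX Y h1 h2⟩
  · obtain ⟨c, C, hc, hC, h⟩ := Pool.Agent.U26Z.MX.tail_all hθ hK
    refine ⟨c, C, hc, hC, fun u => ?_⟩
    obtain ⟨X₀, h0⟩ := h u
    exact eventually_atTop.2 ⟨X₀, fun X hX Y h1 h2 => h0 X hX Y h1 h2⟩
  · obtain ⟨C, hC, X₀, h⟩ := Pool.Agent.U26Z.MX.weak q hθ hK
    exact ⟨C, hC, eventually_atTop.2 ⟨X₀, fun X hX Y h1 h2 u hu => h X hX Y h1 h2 u hu⟩⟩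

end Pool.Agent.U26Z.EX.ExpTails
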