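import Mathlib

set_option autoImplicit false

/-!
# Exponential moments near zero
-/

namespace Pool.Agent.U26Z.EX

open Finset

theorem exp_le_quad {x : ℝ} (hx : 0 ≤ x) : Real.exp x ≤ 1 + x + x ^ 2 * Real.exp x := by
  have h1 : 1 - x ≤ Real.exp (-x) := by
    have := Real.add_one_le_exp (-x)
    linarith
  have h2 : Real.exp x - 1 ≤ x * Real.exp x := by
    have h3 : (1 - x) * Real.exp x ≤ Real.exp (-x) * Real.exp x :=
      mul_le_mul_of_nonneg_right h1 (Real.exp_pos x).le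
    rw [← Real.exp_add, neg_add_cancel, Real.exp_zero] at h3
    linarith
  have h3 : x * (Real.exp x - 1) ≤ x * (x * Real.exp x) := mul_le_mul_of_nonneg_left h2 hx
  nlinarith

theorem sq_le_exp {s w : ℝ} (hs : 0 < s) (hw : 0 ≤ w) : w ^ 2 ≤ 2 / s ^ 2 * Real.exp (s * w) := by
  have h1 := Real.quadratic_le_exp_of_nonneg (show 0 ≤ s * w by positivity)
  rw [div_mul_eq_mul_div, le_div_iff₀ (by positivity)]
  have h2 : 0 ≤ s * w := by positivity
  nlinarith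

theorem exp_up {s τ w : ℝ} (hs : 0 < s) (hτ : 0 ≤ τ) (hτs : τ ≤ s / 2) (hw : 0 ≤ w) :
    Real.exp (τ * w) ≤ 1 + τ * w + τ ^ 2 * (8 / s ^ 2) * Real.exp (s * w) := by
  have h1 := exp_le_quad (show 0 ≤ τ * w by positivity)
  have h2 : Real.exp (τ * w) ≤ Real.exp (s / 2 * w) := Real.exp_le_exp.2 (by gcongr)
  have h3 := sq_le_exp (show 0 < s / 2 by positivity) hw
  have h4 : Real.exp (s * w) = Real.exp (s / 2 * w) * Real.exp (s / 2 * w) := by
    rw [← Real.exp_add]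
    congr 1
    ring
  have h5 : (τ * w) ^ 2 * Real.exp (τ * w) ≤ τ ^ 2 * (8 / s ^ 2) * Real.exp (s * w) := by
    rw [h4]
    calc (τ * w) ^ 2 * Real.exp (τ * w) = τ ^ 2 * (w ^ 2 * Real.exp (τ * w)) := by ring
      _ ≤ τ ^ 2 * ((2 / (s / 2) ^ 2 * Real.exp (s / 2 * w)) * Real.exp (s / 2 * w)) := by gcongr
      _ = _ := by field_simp; ring
  linarith

theorem exp_dn {s τ w : ℝ} (hs : 0 < s) (hτ : 0 ≤ τ) (hw : 0 ≤ w) :
    Real.exp (-(τ * w)) ≤ 1 - τ * w + τ ^ 2 * (8 / s ^ 2) * Real.exp (s * w) := by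
  obtain ⟨x, hx⟩ : ∃ x, x = τ * w := ⟨_, rfl⟩
  have hx0 : 0 ≤ x := by rw [hx]; positivity
  have h1 : Real.exp (-x) ≤ 1 - x + x ^ 2 := by
    rw [Real.exp_neg]
    have h2 := Real.add_one_le_exp x
    have h3 : (Real.exp x)⁻¹ ≤ (x + 1)⁻¹ := inv_anti₀ (by linarith) h2
    refine h3.trans ?_
    rw [inv_le_iff_one_le_mul₀ (by linarith)]
    nlinarith [pow_nonneg hx0 3]
  have h3 := sq_le_exp hs hw
  rw [← hx]
  have h4 : x ^ 2 ≤ τ ^ 2 * (8 / s ^ 2) * Real.exp (s * w) := by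
    rw [hx]
    calc (τ * w) ^ 2 = τ ^ 2 * w ^ 2 := by ring
      _ ≤ τ ^ 2 * (2 / s ^ 2 * Real.exp (s * w)) := by gcongr
      _ ≤ τ ^ 2 * (8 / s ^ 2 * Real.exp (s * w)) := by
          have := Real.exp_pos (s * w)
          gcongr
          norm_num
      _ = _ := by ring
  linarith

/-- exponential moments slightly above and below the mean -/
theorem mgf_both {ε s M : ℝ} (hε : 0 < ε) (hs : 0 < s) (hM : 0 < M) : ∃ τ c : ℝ, 0 < τ ∧ 0 < c ∧
    ∀ (Y : ℕ) (W : ℕ → ℝ), (∀ i, 0 ≤ W i) → ∑ i ∈ range Y, Real.exp (s * W i) ≤ M * Y →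
      (∑ i ∈ range Y, W i ≤ (1 + ε / 2) * Y →
        ∑ i ∈ range Y, Real.exp (τ * (W i - 1 - ε)) ≤ Real.exp (-c) * Y) ∧
      ((1 - ε / 2) * Y ≤ ∑ i ∈ range Y, W i →
        ∑ i ∈ range Y, Real.exp (τ * (1 - ε - W i)) ≤ Real.exp (-c) * Y) := by
  obtain ⟨τ, hτ⟩ : ∃ τ, τ = min (s / 2) (ε * s ^ 2 / (32 * M)) := ⟨_, rfl⟩
  have hτ0 : 0 < τ := by rw [hτ]; exact lt_min (by positivity) (by positivity)
  have hτ1 : τ ≤ s / 2 := by rw [hτ]; exact min_le_left _ _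
  have hτ2 : τ ≤ ε * s ^ 2 / (32 * M) := by rw [hτ]; exact min_le_right _ _
  have hq : τ ^ 2 * (8 / s ^ 2) * M ≤ τ * ε / 4 := by
    rw [le_div_iff₀ (by positivity)] at hτ2
    have h1 : τ ^ 2 * (8 / s ^ 2) * M = τ / (4 * s ^ 2) * (τ * (32 * M)) := by field_simp; ring
    rw [h1]
    calc τ / (4 * s ^ 2) * (τ * (32 * M)) ≤ τ / (4 * s ^ 2) * (ε * s ^ 2) := by gcongr
      _ = τ * ε / 4 := by field_simp
  refine ⟨τ, τ * ε / 4, hτ0, by positivity, fun Y W hW hexp => ⟨fun hsum => ?_, fun hsum => ?_⟩⟩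
  · have hY0 : (0 : ℝ) ≤ Y := Nat.cast_nonneg Y
    have h1 : ∑ i ∈ range Y, Real.exp (τ * W i) ≤ Y * Real.exp (τ * (1 + ε / 2) + τ * ε / 4) := by
      calc ∑ i ∈ range Y, Real.exp (τ * W i)
          ≤ ∑ i ∈ range Y, (1 + τ * W i + τ ^ 2 * (8 / s ^ 2) * Real.exp (s * W i)) :=
            Finset.sum_le_sum fun i _ => exp_up hs hτ0.le hτ1 (hW i)
        _ = Y + τ * ∑ i ∈ range Y, W i + τ ^ 2 * (8 / s ^ 2) * ∑ i ∈ range Y, Real.exp (s * W i) := by
            rw [Finset.sum_add_distrib, Finset.sum_add_distrib, ← Finset.mul_sum, ← Finset.mul_sum,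
              Finset.sum_const, Finset.card_range, nsmul_eq_mul, mul_one]
        _ ≤ Y + τ * ((1 + ε / 2) * Y) + τ ^ 2 * (8 / s ^ 2) * (M * Y) := by gcongr
        _ = Y * (1 + τ * (1 + ε / 2) + τ ^ 2 * (8 / s ^ 2) * M) := by ring
        _ ≤ Y * (1 + τ * (1 + ε / 2) + τ * ε / 4) := by gcongr
        _ ≤ _ := by
            apply mul_le_mul_of_nonneg_left _ hY0
            have := Real.add_one_le_exp (τ * (1 + ε / 2) + τ * ε / 4)
            linarith
    calc ∑ i ∈ range Y, Real.exp (τ * (W i - 1 - ε))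
        = Real.exp (-(τ * (1 + ε))) * ∑ i ∈ range Y, Real.exp (τ * W i) := by
          rw [Finset.mul_sum]
          refine Finset.sum_congr rfl fun i _ => ?_
          rw [← Real.exp_add]
          congr 1
          ring
      _ ≤ Real.exp (-(τ * (1 + ε))) * (Y * Real.exp (τ * (1 + ε / 2) + τ * ε / 4)) := by gcongr
      _ = (Real.exp (-(τ * (1 + ε))) * Real.exp (τ * (1 + ε / 2) + τ * ε / 4)) * Y := by ring
      _ = _ := by
          rw [← Real.exp_add]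
          congr 2
          ring
  · have hY0 : (0 : ℝ) ≤ Y := Nat.cast_nonneg Y
    have h1 : ∑ i ∈ range Y, Real.exp (-(τ * W i)) ≤ Y * Real.exp (-(τ * (1 - ε / 2)) + τ * ε / 4) := by
      calc ∑ i ∈ range Y, Real.exp (-(τ * W i))
          ≤ ∑ i ∈ range Y, (1 - τ * W i + τ ^ 2 * (8 / s ^ 2) * Real.exp (s * W i)) :=
            Finset.sum_le_sum fun i _ => exp_dn hs hτ0.le (hW i)
        _ = Y - τ * ∑ i ∈ range Y, W i + τ ^ 2 * (8 / s ^ 2) * ∑ i ∈ range Y, Real.exp (s * W i) := by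
            rw [Finset.sum_add_distrib, Finset.sum_sub_distrib, ← Finset.mul_sum, ← Finset.mul_sum,
              Finset.sum_const, Finset.card_range, nsmul_eq_mul, mul_one]
        _ ≤ Y - τ * ((1 - ε / 2) * Y) + τ ^ 2 * (8 / s ^ 2) * (M * Y) := by gcongr
        _ = Y * (1 - τ * (1 - ε / 2) + τ ^ 2 * (8 / s ^ 2) * M) := by ring
        _ ≤ Y * (1 - τ * (1 - ε / 2) + τ * ε / 4) := by gcongr
        _ ≤ _ := by
            apply mul_le_mul_of_nonneg_left _ hY0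
            have := Real.add_one_le_exp (-(τ * (1 - ε / 2)) + τ * ε / 4)
            linarith
    calc ∑ i ∈ range Y, Real.exp (τ * (1 - ε - W i))
        = Real.exp (τ * (1 - ε)) * ∑ i ∈ range Y, Real.exp (-(τ * W i)) := by
          rw [Finset.mul_sum]
          refine Finset.sum_congr rfl fun i _ => ?_
          rw [← Real.exp_add]
          congr 1
          ring
      _ ≤ Real.exp (τ * (1 - ε)) * (Y * Real.exp (-(τ * (1 - ε / 2)) + τ * ε / 4)) := by gcongr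
      _ = (Real.exp (τ * (1 - ε)) * Real.exp (-(τ * (1 - ε / 2)) + τ * ε / 4)) * Y := by ring
      _ = _ := by
          rw [← Real.exp_add]
          congr 2
          ring

/-- a positive proportion of positive values -/
theorem mgf_frac {s M : ℝ} (hs : 0 < s) (hM : 0 < M) (Y : ℕ) (W Z : ℕ → ℝ) (hW : ∀ i, 0 ≤ W i)
    (hZ : ∀ i, Z i = 0 ∨ Z i = 1) (hWZ : ∀ i, Z i = 0 → W i = 0)
    (hexp : ∑ i ∈ range Y, Real.exp (s * W i) ≤ M * Y) (hsum : 1 / 2 * Y ≤ ∑ i ∈ range Y, W i) :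
    ∑ i ∈ range Y, Real.exp (s ^ 2 / (32 * M) - Z i) ≤ Real.exp (-(s ^ 2 / (32 * M))) * Y := by
  have hY0 : (0 : ℝ) ≤ Y := Nat.cast_nonneg Y
  obtain ⟨c₀, hc₀⟩ : ∃ c₀, c₀ = s ^ 2 / (8 * M) := ⟨_, rfl⟩
  have hc0 : 0 < c₀ := by rw [hc₀]; positivity
  have e1 : s ^ 2 / (32 * M) = c₀ / 4 := by rw [hc₀]; field_simp; ring
  rw [e1]
  have hZ0 : ∀ i, 0 ≤ Z i := fun i => by rcases hZ i with h | h <;> rw [h] <;> norm_num
  -- the proportion
  have h1 : c₀ * Y ≤ ∑ i ∈ range Y, Z i := by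
    have h2 : (∑ i ∈ range Y, W i) ^ 2 ≤ (∑ i ∈ range Y, Z i ^ 2) * ∑ i ∈ range Y, W i ^ 2 := by
      have h3 := Finset.sum_mul_sq_le_sq_mul_sq (range Y) Z W
      have h4 : ∑ i ∈ range Y, Z i * W i = ∑ i ∈ range Y, W i := by
        refine Finset.sum_congr rfl fun i _ => ?_
        rcases hZ i with h | h
        · rw [h, hWZ i h, mul_zero]
        · rw [h, one_mul]
      rwa [h4] at h3
    have h3 : ∑ i ∈ range Y, Z i ^ 2 = ∑ i ∈ range Y, Z i := by
      refine Finset.sum_congr rfl fun i _ => ?_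
      rcases hZ i with h | h <;> rw [h] <;> norm_num
    have h4 : ∑ i ∈ range Y, W i ^ 2 ≤ 2 / s ^ 2 * (M * Y) := by
      calc ∑ i ∈ range Y, W i ^ 2 ≤ ∑ i ∈ range Y, 2 / s ^ 2 * Real.exp (s * W i) :=
            Finset.sum_le_sum fun i _ => sq_le_exp hs (hW i)
        _ = 2 / s ^ 2 * ∑ i ∈ range Y, Real.exp (s * W i) := by rw [Finset.mul_sum]
        _ ≤ _ := by gcongr
    have hZs : 0 ≤ ∑ i ∈ range Y, Z i := Finset.sum_nonneg fun i _ => hZ0 i
    rw [h3] at h2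
    rcases hY0.eq_or_lt with h5 | h5
    · rw [← h5, mul_zero]
      exact hZs
    · have h6 : (1 / 2 * (Y : ℝ)) ^ 2 ≤ (∑ i ∈ range Y, Z i) * (2 / s ^ 2 * (M * Y)) := by
        calc (1 / 2 * (Y : ℝ)) ^ 2 ≤ (∑ i ∈ range Y, W i) ^ 2 := by gcongr
          _ ≤ (∑ i ∈ range Y, Z i) * ∑ i ∈ range Y, W i ^ 2 := h2
          _ ≤ _ := by gcongr
      have h7 : c₀ * Y * (2 / s ^ 2 * (M * Y)) = (1 / 2 * (Y : ℝ)) ^ 2 := by
        rw [hc₀]
        field_simp
        ring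
      rw [← h7] at h6
      exact le_of_mul_le_mul_right h6 (by positivity)
  have h2 : ∑ i ∈ range Y, Real.exp (-Z i) ≤ Y * Real.exp (-(c₀ / 2)) := by
    have h3 : ∀ i, Real.exp (-Z i) ≤ 1 - 1 / 2 * Z i := by
      intro i
      rcases hZ i with h | h
      · rw [h]
        simp
      · rw [h]
        have h4 : Real.exp (-1) ≤ 1 / 2 := by
          rw [Real.exp_neg]
          have h5 : (2 : ℝ) ≤ Real.exp 1 := by have := Real.exp_one_gt_d9; linarith
          have := inv_anti₀ (by norm_num : (0 : ℝ) < 2) h5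
          linarith
        linarith
    calc ∑ i ∈ range Y, Real.exp (-Z i) ≤ ∑ i ∈ range Y, (1 - 1 / 2 * Z i) := Finset.sum_le_sum fun i _ => h3 i
      _ = Y - 1 / 2 * ∑ i ∈ range Y, Z i := by
          rw [Finset.sum_sub_distrib, ← Finset.mul_sum, Finset.sum_const, Finset.card_range, nsmul_eq_mul, mul_one]
      _ ≤ Y - 1 / 2 * (c₀ * Y) := by gcongr
      _ = Y * (1 - c₀ / 2) := by ring
      _ ≤ _ := by
          apply mul_le_mul_of_nonneg_left _ hY0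
          have := Real.add_one_le_exp (-(c₀ / 2))
          linarith
  calc ∑ i ∈ range Y, Real.exp (c₀ / 4 - Z i) = Real.exp (c₀ / 4) * ∑ i ∈ range Y, Real.exp (-Z i) := by
        rw [Finset.mul_sum]
        refine Finset.sum_congr rfl fun i _ => ?_
        rw [← Real.exp_add]
        congr 1
    _ ≤ Real.exp (c₀ / 4) * (Y * Real.exp (-(c₀ / 2))) := by gcongr
    _ = (Real.exp (c₀ / 4) * Real.exp (-(c₀ / 2))) * Y := by ring
    _ = _ := by
        rw [← Real.exp_add]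
        congr 2
        ring

end Pool.Agent.U26Z.EX
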