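import Pool.Agent.U26Z.EX.Mean
import Pool.Agent.U26Z.EX.Mg
import Pool.Agent.U26Z.EX.Ch

set_option autoImplicit false

/-!
# Sampling the primes at random points: all starting points, all lengths, all numbers of points
-/

namespace Pool.Agent.U26Z.EX

open Finset Filter Topology MeasureTheory ProbabilityTheory

theorem em' {θ κ : ℝ} (hθ : 0 < θ) (hκ : 0 < κ) : ∃ s : ℝ, 0 < s ∧ ∃ S₀ : ℕ, ∀ S : ℕ, S₀ ≤ S → ∀ Y : ℕ,
    (S : ℝ) ^ θ ≤ Y → ∀ H : ℕ, κ * Real.log S ≤ H →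
    ∑ i ∈ range Y, Real.exp (s * (MX.pc (S + i) H * Real.log S / H)) ≤ 48 * Y := by
  obtain ⟨θ', hθ'⟩ : ∃ θ', θ' = min (min θ 1) (4 * κ) := ⟨_, rfl⟩
  have h0 : 0 < θ' := by rw [hθ']; exact lt_min (lt_min hθ one_pos) (by linarith)
  have h1 : θ' ≤ 1 := by rw [hθ']; exact (min_le_left _ _).trans (min_le_right _ _)
  have h2 : θ' ≤ θ := by rw [hθ']; exact (min_le_left _ _).trans (min_le_left _ _)
  have h3 : θ' ≤ 4 * κ := by rw [hθ']; exact min_le_right _ _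
  obtain ⟨s, hs, X₀, h⟩ := em h0 h1
  refine ⟨s / 2, by positivity, X₀ + 4, fun S hS Y hY H hH => ?_⟩
  have hS4 : (4 : ℝ) ≤ S := by exact_mod_cast (by omega : 4 ≤ S)
  have hS1 : ((S - 1 : ℕ) : ℝ) = S - 1 := by
    rw [Nat.cast_sub (by omega)]
    norm_num
  have hlogS : 0 ≤ Real.log (S : ℝ) := Real.log_nonneg (by linarith)
  have hlog1 : Real.log ((S - 1 : ℕ) : ℝ) ≤ Real.log S := Real.log_le_log (by rw [hS1]; linarith) (by rw [hS1]; linarith)
  have hlog2 : Real.log (S : ℝ) ≤ 2 * Real.log ((S - 1 : ℕ) : ℝ) := by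
    rw [hS1]
    have h4 : Real.log ((S : ℝ) - 1) * 2 = Real.log (((S : ℝ) - 1) ^ 2) := by
      rw [Real.log_pow]
      push_cast
      ring
    rw [mul_comm, h4]
    apply Real.log_le_log (by linarith)
    nlinarith
  have hk := h (S - 1) (by omega) (S - 1) le_rfl Y (by
    refine le_trans ?_ hY
    calc (((S - 1 : ℕ)) : ℝ) ^ θ' ≤ (S : ℝ) ^ θ' := by
          apply Real.rpow_le_rpow (Nat.cast_nonneg _) _ h0.le
          rw [hS1]
          linarith
      _ ≤ (S : ℝ) ^ θ := Real.rpow_le_rpow_of_exponent_le (by linarith) h2) H (by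
    refine le_trans ?_ hH
    calc θ' / 4 * Real.log ((S - 1 : ℕ) : ℝ) ≤ θ' / 4 * Real.log S := by gcongr
      _ ≤ κ * Real.log S := by gcongr; linarith)
  refine le_trans ?_ hk
  rw [Finset.range_eq_Ico]
  have h5 : ∑ n ∈ Ioc (S - 1) (S - 1 + Y), Real.exp (s * (MX.pc n H * Real.log ((S - 1 : ℕ) : ℝ) / H)) =
      ∑ i ∈ Ico 0 Y, Real.exp (s * (MX.pc (S + i) H * Real.log ((S - 1 : ℕ) : ℝ) / H)) := by
    symm
    apply Finset.sum_bij (fun i _ => S + i)
    · intro i hi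
      rw [mem_Ico] at hi
      rw [mem_Ioc]
      omega
    · intro a _ b _ hab
      simpa using hab
    · intro n hn
      rw [mem_Ioc] at hn
      refine ⟨n - S, ?_, by omega⟩
      rw [mem_Ico]
      omega
    · intro i _
      rfl
  rw [h5]
  refine Finset.sum_le_sum fun i _ => Real.exp_le_exp.2 ?_
  have h6 : (0 : ℝ) ≤ MX.pc (S + i) H := Nat.cast_nonneg _
  have h7 : (0 : ℝ) ≤ H := Nat.cast_nonneg _
  calc s / 2 * (MX.pc (S + i) H * Real.log S / H) ≤ s / 2 * (MX.pc (S + i) H * (2 * Real.log ((S - 1 : ℕ) : ℝ)) / H) := by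
        gcongr
    _ = _ := by ring

section
variable {Ω : Type*} [MeasurableSpace Ω] {P : Measure Ω} [IsProbabilityMeasure P] {lam : ℕ → Ω → ℝ}
  (hm : ∀ j, Measurable (lam j)) (hi : iIndepFun lam P) (hu : ∀ j, P.map (lam j) = volume.restrict (Set.Icc 0 1))

include hm hi hu

/-- **the average of the number of primes at random points** -/
theorem fam1 {ε : ℝ} (hε : 0 < ε) : ∃ A : ℝ, 0 < A ∧ ∀ᵐ ω ∂P, ∀ᶠ S : ℕ in atTop, ∀ Y : ℕ,
    (S : ℝ) ^ (0.5839 : ℝ) ≤ Y → Y ≤ S → ∀ H : ℕ, Real.log S ≤ H → (H : ℝ) ≤ (S : ℝ) ^ (0.5838 : ℝ) →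
    ∀ m : ℕ, A * Real.log S ≤ m →
      |∑ j ∈ range m, MX.pc (S + ⌊lam j ω * Y⌋₊) H * Real.log S / H - m| ≤ ε * m := by
  classical
  obtain ⟨s, hs, S₁, hem⟩ := em' (θ := 0.5839) (κ := 1) (by norm_num) one_pos
  obtain ⟨S₂, hmean⟩ := mean (show 0 < ε / 2 by positivity)
  obtain ⟨τ, c, hτ, hc, hboth⟩ := mgf_both hε hs (show (0 : ℝ) < 48 by norm_num)
  obtain ⟨T, hT⟩ : ∃ T : ℕ → Finset (ℕ × ℕ), T = fun S : ℕ => ((Icc 1 S) ×ˢ (Icc 1 S)).filter (fun q : ℕ × ℕ =>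
    (S : ℝ) ^ (0.5839 : ℝ) ≤ (q.1 : ℝ) ∧ Real.log S ≤ (q.2 : ℝ) ∧ (q.2 : ℝ) ≤ (S : ℝ) ^ (0.5838 : ℝ)) := ⟨_, rfl⟩
  have hTc : ∀ X, (T X).card ≤ (X + 1) ^ 2 := by
    intro X
    rw [hT]
    refine (Finset.card_filter_le _ _).trans ?_
    rw [Finset.card_product, Nat.card_Icc, Nat.add_sub_cancel]
    nlinarith
  have key : ∀ X, max (max S₁ S₂) 1 ≤ X → ∀ i ∈ T X, 0 < i.1 ∧
      ∑ a ∈ range i.1, Real.exp (τ * (MX.pc (X + a) i.2 * Real.log X / i.2 - 1 - ε)) ≤ Real.exp (-c) * i.1 ∧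
      ∑ a ∈ range i.1, Real.exp (τ * (1 - ε - MX.pc (X + a) i.2 * Real.log X / i.2)) ≤ Real.exp (-c) * i.1 := by
    intro X hX i hiT
    rw [hT] at hiT
    simp only [mem_filter, mem_product, mem_Icc] at hiT
    obtain ⟨⟨⟨h1, h2⟩, h3, h4⟩, h5, h6, h7⟩ := hiT
    have a1 := hem X ((le_max_left _ _).trans ((le_max_left _ _).trans hX)) i.1 h5 i.2 (by rw [one_mul]; exact h6)
    have a2 := hmean X ((le_max_right _ _).trans ((le_max_left _ _).trans hX)) i.1 h5 h2 i.2 h3 h7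
    have a3 := hboth i.1 (fun a => MX.pc (X + a) i.2 * Real.log X / i.2) (fun a => by
      have := Real.log_natCast_nonneg X
      positivity) a1
    exact ⟨by omega, a3.1 a2.2, a3.2 a2.1⟩
  have b1 := bc_all hm hi hu T hTc Prod.fst
    (fun X i a => τ * (MX.pc (X + a) i.2 * Real.log X / i.2 - 1 - ε)) (c := c) (A := 4 / c) hc
    (by field_simp; exact le_rfl) _ (fun X hX i hiT => ⟨(key X hX i hiT).1, (key X hX i hiT).2.1⟩)
  have b2 := bc_all hm hi hu T hTc Prod.fst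
    (fun X i a => τ * (1 - ε - MX.pc (X + a) i.2 * Real.log X / i.2)) (c := c) (A := 4 / c) hc
    (by field_simp; exact le_rfl) _ (fun X hX i hiT => ⟨(key X hX i hiT).1, (key X hX i hiT).2.2⟩)
  refine ⟨4 / c, by positivity, ?_⟩
  filter_upwards [b1, b2] with ω hω1 hω2
  filter_upwards [hω1, hω2, eventually_ge_atTop 3] with S h1 h2 hS3 Y hY1 hY2 H hH1 hH2 m hmm
  have hS3r : (3 : ℝ) ≤ S := by exact_mod_cast hS3
  have hS1 : (1 : ℝ) ≤ S := by linarith
  have hYpos : (0 : ℝ) < Y := lt_of_lt_of_le (by positivity) hY1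
  have hY0 : 0 < Y := by exact_mod_cast hYpos
  have hlogS : 0 < Real.log (S : ℝ) := Real.log_pos (by linarith)
  have hHpos : (0 : ℝ) < H := lt_of_lt_of_le hlogS hH1
  have hH0 : 0 < H := by exact_mod_cast hHpos
  have hHS : H ≤ S := by
    have : (H : ℝ) ≤ S := by
      refine hH2.trans ?_
      calc (S : ℝ) ^ (0.5838 : ℝ) ≤ (S : ℝ) ^ (1 : ℝ) := Real.rpow_le_rpow_of_exponent_le hS1 (by norm_num)
        _ = S := Real.rpow_one _
    exact_mod_cast this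
  have hmem : (Y, H) ∈ T S := by
    rw [hT]
    simp only [mem_filter, mem_product, mem_Icc]
    exact ⟨⟨⟨hY0, hY2⟩, hH0, hHS⟩, hY1, hH1, hH2⟩
  have c1 := h1 (Y, H) hmem m hmm
  have c2 := h2 (Y, H) hmem m hmm
  simp only at c1 c2
  obtain ⟨V, hV⟩ : ∃ V : ℝ, V = ∑ j ∈ range m, MX.pc (S + ⌊lam j ω * Y⌋₊) H * Real.log S / H := ⟨_, rfl⟩
  have e1 : ∑ j ∈ range m, τ * (MX.pc (S + ⌊lam j ω * Y⌋₊) H * Real.log S / H - 1 - ε) = τ * (V - (1 + ε) * m) := by
    rw [← Finset.mul_sum, hV]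
    congr 1
    rw [Finset.sum_sub_distrib, Finset.sum_sub_distrib, Finset.sum_const, Finset.sum_const, Finset.card_range,
      nsmul_eq_mul, nsmul_eq_mul]
    ring
  have e2 : ∑ j ∈ range m, τ * (1 - ε - MX.pc (S + ⌊lam j ω * Y⌋₊) H * Real.log S / H) = τ * ((1 - ε) * m - V) := by
    rw [← Finset.mul_sum, hV]
    congr 1
    rw [Finset.sum_sub_distrib, Finset.sum_sub_distrib, Finset.sum_const, Finset.sum_const, Finset.card_range,
      nsmul_eq_mul, nsmul_eq_mul]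
    ring
  rw [e1] at c1
  rw [e2] at c2
  rw [← hV]
  have d1 : V - (1 + ε) * m < 0 := by
    by_contra hcon
    push Not at hcon
    have := mul_nonneg hτ.le hcon
    linarith
  have d2 : (1 - ε) * m - V < 0 := by
    by_contra hcon
    push Not at hcon
    have := mul_nonneg hτ.le hcon
    linarith
  rw [abs_le]
  constructor <;> linarith

open Classical in
/-- **a positive proportion of the random points is followed by a prime** -/
theorem fam2 {κ : ℝ} (hκ : 0 < κ) : ∃ c A : ℝ, 0 < c ∧ 0 < A ∧ ∀ᵐ ω ∂P, ∀ᶠ S : ℕ in atTop, ∀ Y : ℕ,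
    (S : ℝ) ^ (0.5839 : ℝ) ≤ Y → Y ≤ S → ∀ m : ℕ, A * Real.log S ≤ m →
      c * m ≤ ((range m).filter (fun j => 1 ≤ MX.pc (S + ⌊lam j ω * Y⌋₊) ⌊κ * Real.log S⌋₊)).card := by
  obtain ⟨s, hs, S₁, hem⟩ := em' (θ := 0.5839) (κ := κ / 2) (by norm_num) (by positivity)
  obtain ⟨S₂, hmean⟩ := mean (show (0 : ℝ) < 1 / 2 by norm_num)
  obtain ⟨c, hc⟩ : ∃ c : ℝ, c = s ^ 2 / (32 * 48) := ⟨_, rfl⟩
  have hc0 : 0 < c := by rw [hc]; positivity
  have tN : Tendsto (fun X : ℕ => (X : ℝ)) atTop atTop := tendsto_natCast_atTop_atTop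
  have tL : Tendsto (fun X : ℕ => Real.log (X : ℝ)) atTop atTop := Real.tendsto_log_atTop.comp tN
  have hev1 : ∀ᶠ S : ℕ in atTop, 2 ≤ κ * Real.log S := (tL.const_mul_atTop hκ).eventually_ge_atTop 2
  have hev2 : ∀ᶠ S : ℕ in atTop, κ * Real.log S ≤ (S : ℝ) ^ (0.5838 : ℝ) := by
    have h1 := ((isLittleO_log_rpow_atTop (show (0 : ℝ) < 0.5838 by norm_num)).comp_tendsto tN).bound
      (by positivity : (0 : ℝ) < 1 / κ)
    filter_upwards [h1, tL.eventually_ge_atTop 1] with X h2 h3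
    simp only [Function.comp_def] at h2
    rw [Real.norm_of_nonneg (by positivity), Real.norm_of_nonneg (by positivity)] at h2
    calc κ * Real.log X ≤ κ * (1 / κ * (X : ℝ) ^ (0.5838 : ℝ)) := by gcongr
      _ = _ := by field_simp
  obtain ⟨S₃, hS₃⟩ := eventually_atTop.1 (hev1.and hev2)
  obtain ⟨T, hT⟩ : ∃ T : ℕ → Finset ℕ, T = fun S : ℕ => (Icc 1 S).filter (fun Y : ℕ => (S : ℝ) ^ (0.5839 : ℝ) ≤ (Y : ℝ)) := ⟨_, rfl⟩
  have hTc : ∀ X, (T X).card ≤ (X + 1) ^ 2 := by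
    intro X
    rw [hT]
    refine (Finset.card_filter_le _ _).trans ?_
    rw [Nat.card_Icc, Nat.add_sub_cancel]
    nlinarith
  obtain ⟨Z, hZ⟩ : ∃ Z : ℕ → ℕ → ℝ, Z = fun S a => if 1 ≤ MX.pc (S + a) ⌊κ * Real.log S⌋₊ then 1 else 0 := ⟨_, rfl⟩
  have b1 := bc_all hm hi hu T hTc (fun Y => Y) (fun X _ a => c - Z X a) (c := c) (A := 4 / c) hc0
    (by field_simp; exact le_rfl) (max (max S₁ S₂) (max S₃ 1)) (by
      intro X hX Y hY
      rw [hT] at hY
      simp only [mem_filter, mem_Icc] at hY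
      obtain ⟨⟨h1, h2⟩, h3⟩ := hY
      refine ⟨by omega, ?_⟩
      obtain ⟨h4, h5⟩ := hS₃ X ((le_max_left _ _).trans ((le_max_right _ _).trans hX))
      have hfl : (⌊κ * Real.log X⌋₊ : ℝ) ≤ κ * Real.log X := Nat.floor_le (by linarith)
      have hfl2 : κ * Real.log X < ⌊κ * Real.log X⌋₊ + 1 := Nat.lt_floor_add_one _
      have a1 := hem X ((le_max_left _ _).trans ((le_max_left _ _).trans hX)) Y h3 ⌊κ * Real.log X⌋₊ (by linarith)
      have a2 := hmean X ((le_max_right _ _).trans ((le_max_left _ _).trans hX)) Y h3 h2 ⌊κ * Real.log X⌋₊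
        (Nat.le_floor (by push_cast; linarith)) (hfl.trans h5)
      have a3 := mgf_frac hs (show (0 : ℝ) < 48 by norm_num) Y
        (fun a => MX.pc (X + a) ⌊κ * Real.log X⌋₊ * Real.log X / ⌊κ * Real.log X⌋₊) (Z X) (fun a => by
          have := Real.log_natCast_nonneg X
          positivity) (fun a => by
          rw [hZ]
          simp only
          split_ifs
          · right; rfl
          · left; rfl) (fun a ha => by
          rw [hZ] at ha
          simp only at ha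
          split_ifs at ha with h6
          · exact absurd ha one_ne_zero
          · have h7 : MX.pc (X + a) ⌊κ * Real.log X⌋₊ = 0 := by omega
            rw [h7]
            simp) a1 (by have := a2.1; linarith)
      rw [← hc] at a3
      exact a3)
  refine ⟨c, 4 / c, hc0, by positivity, ?_⟩
  filter_upwards [b1] with ω hω
  filter_upwards [hω, eventually_ge_atTop 1] with S h1 hS1 Y hY1 hY2 m hmm
  have hS1r : (1 : ℝ) ≤ S := by exact_mod_cast hS1
  have hYpos : (0 : ℝ) < Y := lt_of_lt_of_le (by positivity) hY1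
  have hY0 : 0 < Y := by exact_mod_cast hYpos
  have hmem : Y ∈ T S := by
    rw [hT]
    simp only [mem_filter, mem_Icc]
    exact ⟨⟨hY0, hY2⟩, hY1⟩
  have c1 := h1 Y hmem m hmm
  have e1 : ∑ j ∈ range m, (c - Z S ⌊lam j ω * Y⌋₊) = c * m -
      ((range m).filter (fun j => 1 ≤ MX.pc (S + ⌊lam j ω * Y⌋₊) ⌊κ * Real.log S⌋₊)).card := by
    rw [Finset.sum_sub_distrib, Finset.sum_const, Finset.card_range, nsmul_eq_mul, hZ]
    simp only
    rw [Finset.sum_boole]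
    ring
  rw [e1] at c1
  linarith

/-- **the average is bounded in all short intervals** -/
theorem fam3 {θ κ : ℝ} (hθ : 0 < θ) (hκ : 0 < κ) : ∃ C : ℝ, 0 < C ∧ ∀ᵐ ω ∂P, ∀ᶠ S : ℕ in atTop, ∀ Y : ℕ,
    (S : ℝ) ^ θ ≤ Y → Y ≤ S → ∀ H : ℕ, κ * Real.log S ≤ H → H ≤ S → ∀ m : ℕ, 4 * Real.log S ≤ m →
      ∑ j ∈ range m, MX.pc (S + ⌊lam j ω * Y⌋₊) H * Real.log S / H ≤ C * m := by
  classical
  obtain ⟨s, hs, S₁, hem⟩ := em' hθ hκ
  obtain ⟨T, hT⟩ : ∃ T : ℕ → Finset (ℕ × ℕ), T = fun S : ℕ => ((Icc 1 S) ×ˢ (Icc 1 S)).filter (fun q : ℕ × ℕ =>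
    (S : ℝ) ^ θ ≤ (q.1 : ℝ) ∧ κ * Real.log S ≤ (q.2 : ℝ)) := ⟨_, rfl⟩
  have hTc : ∀ X, (T X).card ≤ (X + 1) ^ 2 := by
    intro X
    rw [hT]
    refine (Finset.card_filter_le _ _).trans ?_
    rw [Finset.card_product, Nat.card_Icc, Nat.add_sub_cancel]
    nlinarith
  have b1 := bc_all hm hi hu T hTc Prod.fst
    (fun X i a => s * (MX.pc (X + a) i.2 * Real.log X / i.2) - (Real.log 48 + 1)) (c := 1) (A := 4) one_pos
    (by norm_num) S₁ (by
      intro X hX i hiT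
      rw [hT] at hiT
      simp only [mem_filter, mem_product, mem_Icc] at hiT
      obtain ⟨⟨⟨h1, h2⟩, h3, h4⟩, h5, h6⟩ := hiT
      refine ⟨by omega, ?_⟩
      have a1 := hem X hX i.1 h5 i.2 h6
      have e1 : ∀ a : ℕ, Real.exp (s * (MX.pc (X + a) i.2 * Real.log X / i.2) - (Real.log 48 + 1)) =
          Real.exp (-1) / 48 * Real.exp (s * (MX.pc (X + a) i.2 * Real.log X / i.2)) := by
        intro a
        rw [Real.exp_sub, Real.exp_add, Real.exp_log (by norm_num), Real.exp_neg]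
        field_simp
      simp only [e1]
      rw [← Finset.mul_sum]
      calc Real.exp (-1) / 48 * ∑ a ∈ range i.1, Real.exp (s * (MX.pc (X + a) i.2 * Real.log X / i.2))
          ≤ Real.exp (-1) / 48 * (48 * i.1) := by gcongr
        _ = _ := by ring)
  refine ⟨(Real.log 48 + 1) / s, by
    have : 0 < Real.log 48 := Real.log_pos (by norm_num)
    positivity, ?_⟩
  filter_upwards [b1] with ω hω
  filter_upwards [hω, eventually_ge_atTop 3] with S h1 hS3 Y hY1 hY2 H hH1 hHS m hmm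
  have hS3r : (3 : ℝ) ≤ S := by exact_mod_cast hS3
  have hYpos : (0 : ℝ) < Y := lt_of_lt_of_le (by positivity) hY1
  have hY0 : 0 < Y := by exact_mod_cast hYpos
  have hlogS : 0 < Real.log (S : ℝ) := Real.log_pos (by linarith)
  have hHpos : (0 : ℝ) < H := lt_of_lt_of_le (by positivity) hH1
  have hH0 : 0 < H := by exact_mod_cast hHpos
  have hmem : (Y, H) ∈ T S := by
    rw [hT]
    simp only [mem_filter, mem_product, mem_Icc]
    exact ⟨⟨⟨hY0, hY2⟩, hH0, hHS⟩, hY1, hH1⟩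
  have c1 := h1 (Y, H) hmem m hmm
  simp only at c1
  rw [Finset.sum_sub_distrib, ← Finset.mul_sum, Finset.sum_const, Finset.card_range, nsmul_eq_mul] at c1
  rw [div_mul_eq_mul_div, le_div_iff₀ hs]
  linarith

end

end Pool.Agent.U26Z.EX
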