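import Pool.Agent.U26Z.EX.Long

set_option autoImplicit false

/-!
# The mean of the number of primes in short windows
-/

namespace Pool.Agent.U26Z.EX

open Finset Filter Topology

theorem sum_pc_eq (S Y H : ℕ) : ∑ i ∈ range Y, MX.pc (S + i) H =
    ∑ p ∈ (Ioc S (S + (Y + H))).filter Nat.Prime, ((range Y).filter (fun i => S + i < p ∧ p ≤ S + i + H)).card := by
  classical
  calc ∑ i ∈ range Y, MX.pc (S + i) H
      = ∑ i ∈ range Y, ∑ p ∈ (Ioc S (S + (Y + H))).filter Nat.Prime, if S + i < p ∧ p ≤ S + i + H then 1 else 0 := by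
        refine Finset.sum_congr rfl fun i hi => ?_
        rw [mem_range] at hi
        unfold MX.pc
        rw [← Finset.sum_filter, Finset.filter_filter, Finset.card_eq_sum_ones]
        apply Finset.sum_congr _ fun _ _ => rfl
        ext p
        rw [mem_filter, mem_filter, mem_Ioc, mem_Ioc]
        constructor
        · rintro ⟨⟨h2, h3⟩, h4⟩
          exact ⟨⟨by omega, by omega⟩, h4, h2, h3⟩
        · rintro ⟨_, h4, h2, h3⟩
          exact ⟨⟨h2, h3⟩, h4⟩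
    _ = _ := by
        rw [Finset.sum_comm]
        refine Finset.sum_congr rfl fun p _ => ?_
        rw [← Finset.sum_filter, Finset.card_eq_sum_ones]

theorem sum_pc_le (S Y H : ℕ) : ∑ i ∈ range Y, MX.pc (S + i) H ≤ H * MX.pc S (Y + H) := by
  classical
  rw [sum_pc_eq]
  calc ∑ p ∈ (Ioc S (S + (Y + H))).filter Nat.Prime, ((range Y).filter (fun i => S + i < p ∧ p ≤ S + i + H)).card
      ≤ ∑ _p ∈ (Ioc S (S + (Y + H))).filter Nat.Prime, H := by
        refine Finset.sum_le_sum fun p _ => ?_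
        have h1 : (range Y).filter (fun i => S + i < p ∧ p ≤ S + i + H) ⊆ Ico (p - S - H) (p - S) := by
          intro i hi
          rw [mem_filter] at hi
          rw [mem_Ico]
          omega
        have h2 := Finset.card_le_card h1
        rw [Nat.card_Ico] at h2
        omega
    _ = H * MX.pc S (Y + H) := by
        rw [Finset.sum_const, smul_eq_mul, mul_comm]
        rfl

theorem sum_pc_ge (S Y H : ℕ) (hHY : H ≤ Y) : H * MX.pc S Y ≤ ∑ i ∈ range Y, MX.pc (S + i) H + H * H := by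
  classical
  have h0 : MX.pc S Y ≤ H + MX.pc (S + H) (Y - H) := by
    have h1 := pc_add S H (Y - H)
    rw [Nat.add_sub_cancel' hHY] at h1
    have h2 := pc_le S H
    omega
  have h1 : H * MX.pc (S + H) (Y - H) ≤ ∑ i ∈ range Y, MX.pc (S + i) H := by
    rw [sum_pc_eq]
    have hsub : (Ioc (S + H) (S + H + (Y - H))).filter Nat.Prime ⊆ (Ioc S (S + (Y + H))).filter Nat.Prime := by
      intro p hp
      rw [mem_filter, mem_Ioc] at hp ⊢
      exact ⟨⟨by omega, by omega⟩, hp.2⟩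
    calc H * MX.pc (S + H) (Y - H) = ∑ _p ∈ (Ioc (S + H) (S + H + (Y - H))).filter Nat.Prime, H := by
          rw [Finset.sum_const, smul_eq_mul, mul_comm]
          rfl
      _ ≤ ∑ p ∈ (Ioc (S + H) (S + H + (Y - H))).filter Nat.Prime,
          ((range Y).filter (fun i => S + i < p ∧ p ≤ S + i + H)).card := by
          refine Finset.sum_le_sum fun p hp => ?_
          rw [mem_filter, mem_Ioc] at hp
          have h1 : Ico (p - S - H) (p - S) ⊆ (range Y).filter (fun i => S + i < p ∧ p ≤ S + i + H) := by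
            intro i hi
            rw [mem_Ico] at hi
            rw [mem_filter, mem_range]
            omega
          have h2 := Finset.card_le_card h1
          rw [Nat.card_Ico] at h2
          omega
      _ ≤ _ := Finset.sum_le_sum_of_subset hsub
  calc H * MX.pc S Y ≤ H * (H + MX.pc (S + H) (Y - H)) := Nat.mul_le_mul_left _ h0
    _ = H * MX.pc (S + H) (Y - H) + H * H := by ring
    _ ≤ _ := by omega

theorem primesIn_nat' (n m : ℕ) : DX.primesIn (n : ℝ) (m : ℝ) = MX.pc n m := by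
  unfold DX.primesIn MX.pc
  rw [Nat.floor_natCast, ← Nat.cast_add, Nat.floor_natCast]

/-- **the mean** -/
theorem mean {δ : ℝ} (hδ : 0 < δ) : ∃ S₀ : ℕ, ∀ S : ℕ, S₀ ≤ S → ∀ Y : ℕ, (S : ℝ) ^ (0.5839 : ℝ) ≤ Y → Y ≤ S →
    ∀ H : ℕ, 1 ≤ H → (H : ℝ) ≤ (S : ℝ) ^ (0.5838 : ℝ) →
      (1 - δ) * Y ≤ ∑ i ∈ range Y, MX.pc (S + i) H * Real.log S / H ∧
      ∑ i ∈ range Y, MX.pc (S + i) H * Real.log S / H ≤ (1 + δ) * Y := by
  obtain ⟨δ₁, hδ₁⟩ : ∃ δ₁, δ₁ = min (δ / 4) 1 := ⟨_, rfl⟩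
  have hδ₁0 : 0 < δ₁ := by rw [hδ₁]; exact lt_min (by positivity) one_pos
  have hδ₁1 : δ₁ ≤ 1 := by rw [hδ₁]; exact min_le_right _ _
  have hδ₁δ : δ₁ ≤ δ / 4 := by rw [hδ₁]; exact min_le_left _ _
  have hl := longg (δ := δ₁) (D := 2) hδ₁0 two_pos
  have tN : Tendsto (fun X : ℕ => (X : ℝ)) atTop atTop := tendsto_natCast_atTop_atTop
  have tL : Tendsto (fun X : ℕ => Real.log (X : ℝ)) atTop atTop := Real.tendsto_log_atTop.comp tN
  have hev1 := tN.eventually hl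
  have hev2 : ∀ᶠ S : ℕ in atTop, Real.log S ≤ δ₁ * (S : ℝ) ^ (0.0001 : ℝ) := by
    have h1 := ((isLittleO_log_rpow_atTop (show (0 : ℝ) < 0.0001 by norm_num)).comp_tendsto tN).bound hδ₁0
    filter_upwards [h1, tL.eventually_ge_atTop 1] with X h2 h3
    simp only [Function.comp_def] at h2
    rwa [Real.norm_of_nonneg (by positivity), Real.norm_of_nonneg (by positivity)] at h2
  obtain ⟨S₁, hS₁⟩ := eventually_atTop.1 ((hev1.and hev2).and (tL.eventually_ge_atTop 1))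
  refine ⟨S₁ + 1, fun S hS Y hY1 hY2 H hH1 hH2 => ?_⟩
  obtain ⟨⟨h1, h2⟩, h3⟩ := hS₁ S (by omega)
  have hS1 : (1 : ℝ) ≤ S := by exact_mod_cast (by omega : 1 ≤ S)
  have hS0 : (0 : ℝ) < S := by linarith
  obtain ⟨L, hL⟩ : ∃ L, L = Real.log (S : ℝ) := ⟨_, rfl⟩
  rw [← hL] at h2 h3 ⊢
  have hHr : (1 : ℝ) ≤ H := by exact_mod_cast hH1
  have hH0 : (0 : ℝ) < H := by linarith
  -- `H log S ≤ δ₁ Y`
  have hHL : H * L ≤ δ₁ * Y := by
    calc H * L ≤ (S : ℝ) ^ (0.5838 : ℝ) * (δ₁ * (S : ℝ) ^ (0.0001 : ℝ)) := by gcongr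
      _ = δ₁ * (S : ℝ) ^ (0.5839 : ℝ) := by
          have : (S : ℝ) ^ (0.5839 : ℝ) = (S : ℝ) ^ (0.5838 : ℝ) * (S : ℝ) ^ (0.0001 : ℝ) := by
            rw [← Real.rpow_add hS0]
            norm_num
          rw [this]
          ring
      _ ≤ _ := by gcongr
  have hHY : (H : ℝ) ≤ δ₁ * Y := by nlinarith
  have hYpos : (0 : ℝ) < Y := lt_of_lt_of_le (by positivity) hY1
  have hHYn : H ≤ Y := by
    have : (H : ℝ) ≤ Y := by nlinarith
    exact_mod_cast this
  have hS36 : (S : ℝ) ^ (0.5836 : ℝ) ≤ Y :=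
    (Real.rpow_le_rpow_of_exponent_le hS1 (by norm_num)).trans hY1
  have hYS : (Y : ℝ) ≤ S := by exact_mod_cast hY2
  have d1 := h1 Y hS36 (by linarith)
  have d2 := h1 ((Y + H : ℕ) : ℝ) (by push_cast; linarith) (by
    have : (H : ℝ) ≤ Y := by exact_mod_cast hHYn
    push_cast
    linarith)
  unfold DX.density at d1 d2
  rw [primesIn_nat', ← hL] at d1 d2
  have e1 : ∑ i ∈ range Y, (MX.pc (S + i) H : ℝ) * L / H = L / H * ((∑ i ∈ range Y, MX.pc (S + i) H : ℕ) : ℝ) := by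
    push_cast
    rw [Finset.mul_sum]
    exact Finset.sum_congr rfl fun i _ => by ring
  rw [e1]
  have hup : ((∑ i ∈ range Y, MX.pc (S + i) H : ℕ) : ℝ) ≤ H * MX.pc S (Y + H) := by exact_mod_cast sum_pc_le S Y H
  have hdn : (H : ℝ) * MX.pc S Y ≤ ((∑ i ∈ range Y, MX.pc (S + i) H : ℕ) : ℝ) + H * H := by
    exact_mod_cast sum_pc_ge S Y H hHYn
  obtain ⟨Sg, hSg⟩ : ∃ Sg : ℝ, Sg = ((∑ i ∈ range Y, MX.pc (S + i) H : ℕ) : ℝ) := ⟨_, rfl⟩
  rw [← hSg] at hup hdn ⊢
  obtain ⟨p1, hp1⟩ : ∃ p1 : ℝ, p1 = MX.pc S Y := ⟨_, rfl⟩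
  obtain ⟨p2, hp2⟩ : ∃ p2 : ℝ, p2 = MX.pc S (Y + H) := ⟨_, rfl⟩
  rw [← hp1] at hdn d1
  rw [← hp2] at hup d2
  have a1 := (abs_le.1 d1).1
  have a2 := (abs_le.1 d2).2
  have b1 : (1 - δ₁) * Y ≤ p1 * L := by
    have : 1 - δ₁ ≤ p1 * L / Y := by linarith
    rwa [le_div_iff₀ hYpos] at this
  have b2 : p2 * L ≤ (1 + δ₁) * ((Y + H : ℕ) : ℝ) := by
    have h5 : (0 : ℝ) < ((Y + H : ℕ) : ℝ) := by push_cast; positivity
    have : p2 * L / ((Y + H : ℕ) : ℝ) ≤ 1 + δ₁ := by linarith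
    rwa [div_le_iff₀ h5] at this
  push_cast at b2
  have hL0 : 0 < L := by linarith
  constructor
  · have h5 : p1 * L - H * L ≤ L / H * Sg := by
      have h6 : L / H * (H * p1) ≤ L / H * (Sg + H * H) := by gcongr
      have h7 : L / H * (H * p1) = p1 * L := by field_simp
      have h8 : L / H * (Sg + H * H) = L / H * Sg + H * L := by field_simp
      linarith
    nlinarith
  · have h5 : L / H * Sg ≤ p2 * L := by
      calc L / H * Sg ≤ L / H * (H * p2) := by gcongr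
        _ = p2 * L := by field_simp
    have h6 : (1 + δ₁) * ((Y : ℝ) + H) ≤ (1 + δ₁) * ((1 + δ₁) * Y) := by
      apply mul_le_mul_of_nonneg_left _ (by linarith)
      linarith
    have h7 : (1 + δ₁) * ((1 + δ₁) * Y) ≤ (1 + δ) * Y := by
      rw [← mul_assoc]
      apply mul_le_mul_of_nonneg_right _ hYpos.le
      nlinarith
    linarith

end Pool.Agent.U26Z.EX
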