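import Pool.Agent.U26Z.EX.Fam

set_option autoImplicit false

/-!
# Sampling the primes at random points: all real starting points and lengths
-/

namespace Pool.Agent.U26Z.EX

open Finset Filter Topology MeasureTheory ProbabilityTheory

open Pool.Agent.U26Z.DX (primesIn density)

theorem close {x Y l : ℝ} (hx : 0 ≤ x) (hY : 0 ≤ Y) (hl0 : 0 ≤ l) (hl1 : l ≤ 1) :
    ((⌊x⌋₊ + ⌊l * ⌊Y⌋₊⌋₊ : ℕ) : ℝ) ≤ x + l * Y ∧ x + l * Y < ((⌊x⌋₊ + ⌊l * ⌊Y⌋₊⌋₊ : ℕ) : ℝ) + 3 := by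
  have h1 := Nat.floor_le hx
  have h2 := Nat.lt_floor_add_one x
  have h3 := Nat.floor_le hY
  have h4 := Nat.lt_floor_add_one Y
  have h5 : 0 ≤ l * (⌊Y⌋₊ : ℝ) := by positivity
  have h6 := Nat.floor_le h5
  have h7 := Nat.lt_floor_add_one (l * (⌊Y⌋₊ : ℝ))
  have h8 : l * (⌊Y⌋₊ : ℝ) ≤ l * Y := by gcongr
  have h9 : l * Y ≤ l * (⌊Y⌋₊ : ℝ) + 1 := by
    have h10 : l * Y ≤ l * ((⌊Y⌋₊ : ℝ) + 1) := by gcongr
    linarith
  push_cast
  constructor <;> linarith

/-- comparison of the windows -/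
theorem windows {y H : ℝ} {n : ℕ} (hH : 0 ≤ H) (h1 : (n : ℝ) ≤ y) (h2 : y < n + 3) :
    primesIn y H ≤ MX.pc n ⌊H⌋₊ + 3 ∧ MX.pc n ⌊H⌋₊ ≤ primesIn y H + 3 := by
  classical
  have hy : 0 ≤ y := (Nat.cast_nonneg n).trans h1
  have hH1 := Nat.floor_le hH
  have hH2 := Nat.lt_floor_add_one H
  have a1 : n ≤ ⌊y⌋₊ := Nat.le_floor h1
  have a2 : ⌊y⌋₊ < n + 3 := by
    rw [Nat.floor_lt hy]
    push_cast
    exact h2
  have a3 : ⌊y + H⌋₊ ≤ n + (⌊H⌋₊ + 3) := by
    have : ⌊y + H⌋₊ < n + (⌊H⌋₊ + 3) + 1 := by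
      rw [Nat.floor_lt (by positivity)]
      push_cast
      linarith
    omega
  have a4 : n + ⌊H⌋₊ ≤ ⌊y + H⌋₊ := by
    apply Nat.le_floor
    push_cast
    linarith
  constructor
  · have h3 : primesIn y H ≤ MX.pc n (⌊H⌋₊ + 3) := by
      unfold primesIn MX.pc
      apply card_le_card
      apply filter_subset_filter
      exact Finset.Ioc_subset_Ioc a1 a3
    have h4 := pc_add n ⌊H⌋₊ 3
    have h5 := pc_le (n + ⌊H⌋₊) 3
    omega
  · have h3 : (Ioc n (n + ⌊H⌋₊)).filter Nat.Prime ⊆ Ioc n (n + 3) ∪ (Ioc ⌊y⌋₊ ⌊y + H⌋₊).filter Nat.Prime := by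
      intro p hp
      rw [mem_filter, mem_Ioc] at hp
      rw [mem_union, mem_filter, mem_Ioc, mem_Ioc]
      by_cases h : p ≤ n + 3
      · left; exact ⟨hp.1.1, h⟩
      · right; exact ⟨⟨by omega, by omega⟩, hp.2⟩
    have h4 := (card_le_card h3).trans (card_union_le _ _)
    rw [Nat.card_Ioc] at h4
    unfold primesIn MX.pc
    omega

/-- the comparison of the densities -/
theorem dens_cmp {L ℓ H η C : ℝ} {p q H' : ℝ} (hL : 0 < L) (hH : 0 < H) (hH' : 0 < H') (hq : 0 ≤ q)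
    (hpq : |p - q| ≤ 3) (hℓ0 : 0 ≤ ℓ) (hℓ : ℓ ≤ 2 * L) (hC : 0 < C) (hCH : C * L ≤ H)
    (hr : |ℓ * H' / (H * L) - 1| ≤ η) :
    |p * ℓ / H - q * L / H'| ≤ 6 / C + η * (q * L / H') := by
  have e1 : p * ℓ / H - q * L / H' = (p - q) * (ℓ / H) + (q * L / H') * (ℓ * H' / (H * L) - 1) := by
    field_simp
    ring
  rw [e1]
  refine (abs_add_le _ _).trans ?_
  rw [abs_mul, abs_mul, abs_of_nonneg (show 0 ≤ ℓ / H by positivity), abs_of_nonneg (show 0 ≤ q * L / H' by positivity)]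
  have h1 : |p - q| * (ℓ / H) ≤ 6 / C := by
    calc |p - q| * (ℓ / H) ≤ 3 * (2 * L / (C * L)) := by gcongr
      _ = 6 / C := by field_simp; norm_num
  have h2 : q * L / H' * |ℓ * H' / (H * L) - 1| ≤ q * L / H' * η := by gcongr
  linarith

section
variable {Ω : Type*} [MeasurableSpace Ω] {P : Measure Ω} [IsProbabilityMeasure P] {lam : ℕ → Ω → ℝ}
  (hm : ∀ j, Measurable (lam j)) (hi : iIndepFun lam P) (hu : ∀ j, P.map (lam j) = volume.restrict (Set.Icc 0 1))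

include hm hu in
omit [IsProbabilityMeasure P] in
theorem ae_Icc : ∀ᵐ ω ∂P, ∀ j, 0 ≤ lam j ω ∧ lam j ω ≤ 1 := by
  rw [ae_all_iff]
  intro j
  have h1 : ∀ᵐ t ∂(P.map (lam j)), t ∈ Set.Icc (0 : ℝ) 1 := by
    rw [hu j]
    exact ae_restrict_mem measurableSet_Icc
  exact ae_of_ae_map (hm j).aemeasurable h1

include hm hi hu

/-- **sampling, all real parameters** -/
theorem samp1 {ε : ℝ} (hε : 0 < ε) : ∃ C : ℝ, 0 < C ∧ ∀ᵐ ω ∂P, ∀ᶠ x : ℝ in atTop, ∀ Y : ℝ,
    x ^ (0.584 : ℝ) ≤ Y → Y ≤ x → ∀ H : ℝ, C * Real.log x ≤ H → H ≤ Y → ∀ m : ℕ, C * Real.log x ≤ m →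
      |∑ j ∈ range m, density (x + lam j ω * Y) H - m| ≤ ε * m := by
  obtain ⟨ε₁, hε₁⟩ : ∃ ε₁, ε₁ = min ε 1 := ⟨_, rfl⟩
  have h10 : 0 < ε₁ := by rw [hε₁]; exact lt_min hε one_pos
  have h11 : ε₁ ≤ 1 := by rw [hε₁]; exact min_le_right _ _
  have h12 : ε₁ ≤ ε := by rw [hε₁]; exact min_le_left _ _
  obtain ⟨A, hA, hfam⟩ := fam1 hm hi hu (show 0 < ε₁ / 4 by positivity)
  obtain ⟨C, hC⟩ : ∃ C, C = max (max A 24) (24 / ε₁) := ⟨_, rfl⟩
  have hCA : A ≤ C := by rw [hC]; exact (le_max_left _ _).trans (le_max_left _ _)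
  have hC24 : 24 ≤ C := by rw [hC]; exact (le_max_right _ _).trans (le_max_left _ _)
  have hCε : 24 / ε₁ ≤ C := by rw [hC]; exact le_max_right _ _
  have hC0 : 0 < C := by linarith
  refine ⟨C, hC0, ?_⟩
  have hl := longg (δ := ε) (D := 2) hε two_pos
  obtain ⟨y₀, hy₀⟩ := eventually_atTop.1 hl
  filter_upwards [hfam, ae_Icc hm hu] with ω hω hI
  have tF : Tendsto (fun x : ℝ => ⌊x⌋₊) atTop atTop := tendsto_nat_floor_atTop
  have hev1 := tF.eventually hω
  have hev2 : ∀ᶠ x : ℝ in atTop, 2 * x ^ (0.5836 : ℝ) ≤ x ^ (0.5837 : ℝ) := by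
    filter_upwards [(tendsto_rpow_atTop (show (0 : ℝ) < 0.0001 by norm_num)).eventually_ge_atTop 2,
      eventually_gt_atTop 0] with x h1 h2
    have : x ^ (0.5837 : ℝ) = x ^ (0.0001 : ℝ) * x ^ (0.5836 : ℝ) := by
      rw [← Real.rpow_add h2]
      norm_num
    rw [this]
    gcongr
  have hev3 : ∀ᶠ x : ℝ in atTop, 2 ≤ (⌊x⌋₊ : ℝ) ^ (0.0001 : ℝ) :=
    ((tendsto_rpow_atTop (show (0 : ℝ) < 0.0001 by norm_num)).comp (tendsto_natCast_atTop_atTop.comp tF)).eventually_ge_atTop 2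
  filter_upwards [hev1, hev2, hev3, eventually_ge_atTop (max y₀ 4),
    Real.tendsto_log_atTop.eventually_ge_atTop (16 * (2 + 1) / ε₁ + 2)] with x h1 h2 h3 h4 h5 Y hY1 hY2 H hH1 hH2 m hmm
  have hxy₀ : y₀ ≤ x := (le_max_left _ _).trans h4
  have hx4 : 4 ≤ x := (le_max_right _ _).trans h4
  have hx0 : 0 < x := by linarith
  have hlogx : 0 < Real.log x := Real.log_pos (by linarith)
  have hYpos : 0 < Y := lt_of_lt_of_le (by positivity) hY1
  have hm0 : (0 : ℝ) ≤ m := Nat.cast_nonneg m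
  have hHpos : 0 < H := lt_of_lt_of_le (by positivity) hH1
  rcases le_or_gt (x ^ (0.5837 : ℝ)) H with hbig | hsmall
  · -- long intervals
    have h6 : ∀ j, |density (x + lam j ω * Y) H - 1| ≤ ε := by
      intro j
      obtain ⟨hj0, hj1⟩ := hI j
      have h7 : 0 ≤ lam j ω * Y := by positivity
      have h8 : lam j ω * Y ≤ x := (mul_le_of_le_one_left hYpos.le hj1).trans hY2
      apply hy₀ _ (by linarith)
      · refine le_trans ?_ (h2.trans hbig)
        calc (x + lam j ω * Y) ^ (0.5836 : ℝ) ≤ (2 * x) ^ (0.5836 : ℝ) := by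
              apply Real.rpow_le_rpow (by linarith) (by linarith) (by norm_num)
          _ = 2 ^ (0.5836 : ℝ) * x ^ (0.5836 : ℝ) := Real.mul_rpow (by norm_num) hx0.le
          _ ≤ 2 ^ (1 : ℝ) * x ^ (0.5836 : ℝ) := by
              gcongr
              · norm_num
              · norm_num
          _ = _ := by rw [Real.rpow_one]
      · linarith
    have e1 : ∑ j ∈ range m, density (x + lam j ω * Y) H - m = ∑ j ∈ range m, (density (x + lam j ω * Y) H - 1) := by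
      rw [Finset.sum_sub_distrib, Finset.sum_const, Finset.card_range, nsmul_eq_mul, mul_one]
    rw [e1]
    refine (Finset.abs_sum_le_sum_abs _ _).trans ((Finset.sum_le_sum fun j _ => h6 j).trans (le_of_eq ?_))
    rw [Finset.sum_const, Finset.card_range, nsmul_eq_mul, mul_comm]
  · -- short intervals
    obtain ⟨S, hS⟩ : ∃ S, S = ⌊x⌋₊ := ⟨_, rfl⟩
    obtain ⟨Y', hY'⟩ : ∃ Y', Y' = ⌊Y⌋₊ := ⟨_, rfl⟩
    obtain ⟨H', hH'⟩ : ∃ H', H' = ⌊H⌋₊ := ⟨_, rfl⟩
    rw [← hS] at h1 h3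
    have hSx : (S : ℝ) ≤ x := by rw [hS]; exact Nat.floor_le hx0.le
    have hSx2 : x < S + 1 := by rw [hS]; exact Nat.lt_floor_add_one x
    have hYY : (Y' : ℝ) ≤ Y := by rw [hY']; exact Nat.floor_le hYpos.le
    have hYY2 : Y < Y' + 1 := by rw [hY']; exact Nat.lt_floor_add_one Y
    have hHH : (H' : ℝ) ≤ H := by rw [hH']; exact Nat.floor_le hHpos.le
    have hHH2 : H < H' + 1 := by rw [hH']; exact Nat.lt_floor_add_one H
    have hS3 : (3 : ℝ) < S := by linarith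
    have hS0 : (0 : ℝ) < S := by linarith
    obtain ⟨L, hL⟩ : ∃ L, L = Real.log (S : ℝ) := ⟨_, rfl⟩
    have hLx : L ≤ Real.log x := by rw [hL]; exact Real.log_le_log hS0 hSx
    have hLx2 : Real.log x ≤ L + 1 := by
      have h6 : Real.log x ≤ Real.log (2 * S) := Real.log_le_log hx0 (by linarith)
      rw [Real.log_mul (by norm_num) hS0.ne', ← hL] at h6
      have := Real.log_two_lt_d9
      linarith
    have hLbig : 16 * (2 + 1) / ε₁ + 1 ≤ L := by linarith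
    have h48 : 48 ≤ 16 * (2 + 1) / ε₁ := by
      rw [le_div_iff₀ h10]
      linarith
    have hL1 : 1 ≤ L := by linarith
    have hL0 : 0 < L := by linarith
    have hS1 : (1 : ℝ) ≤ S := by linarith
    -- the conditions
    have c1 : (S : ℝ) ^ (0.5839 : ℝ) ≤ Y' := by
      have h6 : 2 * (S : ℝ) ^ (0.5839 : ℝ) ≤ Y := by
        refine le_trans ?_ hY1
        calc 2 * (S : ℝ) ^ (0.5839 : ℝ) ≤ (S : ℝ) ^ (0.0001 : ℝ) * (S : ℝ) ^ (0.5839 : ℝ) := by gcongr
          _ = (S : ℝ) ^ (0.584 : ℝ) := by rw [← Real.rpow_add hS0]; norm_num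
          _ ≤ x ^ (0.584 : ℝ) := by gcongr
      have h7 : 1 ≤ (S : ℝ) ^ (0.5839 : ℝ) := Real.one_le_rpow hS1 (by norm_num)
      linarith
    have c2 : Y' ≤ S := by
      rw [hY', hS]
      exact Nat.floor_le_floor hY2
    have h24 : 24 * Real.log x ≤ H := le_trans (mul_le_mul_of_nonneg_right hC24 hlogx.le) hH1
    have c3 : Real.log S ≤ H' := by
      rw [← hL]
      linarith
    have c4 : (H' : ℝ) ≤ (S : ℝ) ^ (0.5838 : ℝ) := by
      calc (H' : ℝ) ≤ x ^ (0.5837 : ℝ) := by linarith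
        _ ≤ (2 * S) ^ (0.5837 : ℝ) := by
            apply Real.rpow_le_rpow hx0.le (by linarith) (by norm_num)
        _ = 2 ^ (0.5837 : ℝ) * (S : ℝ) ^ (0.5837 : ℝ) := Real.mul_rpow (by norm_num) hS0.le
        _ ≤ 2 ^ (1 : ℝ) * (S : ℝ) ^ (0.5837 : ℝ) := by
            gcongr
            · norm_num
            · norm_num
        _ = 2 * (S : ℝ) ^ (0.5837 : ℝ) := by rw [Real.rpow_one]
        _ ≤ (S : ℝ) ^ (0.0001 : ℝ) * (S : ℝ) ^ (0.5837 : ℝ) := by gcongr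
        _ = _ := by rw [← Real.rpow_add hS0]; norm_num
    have c5 : A * Real.log S ≤ m := by
      rw [← hL]
      refine le_trans ?_ hmm
      calc A * L ≤ C * L := by gcongr
        _ ≤ C * Real.log x := by gcongr
    have hmain := h1 Y' c1 c2 H' c3 c4 m c5
    rw [← hL] at hmain
    have hH'0 : (0 : ℝ) < H' := by linarith
    obtain ⟨V, hV⟩ : ∃ V : ℝ, V = ∑ j ∈ range m, MX.pc (S + ⌊lam j ω * Y'⌋₊) H' * L / H' := ⟨_, rfl⟩
    rw [← hV] at hmain
    have hVm : V ≤ 2 * m := by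
      have h6 := (abs_le.1 hmain).2
      have h7 : ε₁ / 4 * (m : ℝ) ≤ 1 * m := mul_le_mul_of_nonneg_right (by linarith) hm0
      linarith
    have hterm : ∀ j ∈ range m, |density (x + lam j ω * Y) H - MX.pc (S + ⌊lam j ω * Y'⌋₊) H' * L / H'| ≤
        6 / C + ε₁ / 16 * (MX.pc (S + ⌊lam j ω * Y'⌋₊) H' * L / H') := by
      intro j _
      obtain ⟨hj0, hj1⟩ := hI j
      obtain ⟨hc1, hc2⟩ := close (x := x) (Y := Y) hx0.le hYpos.le hj0 hj1
      rw [← hS, ← hY'] at hc1 hc2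
      obtain ⟨hw1, hw2⟩ := windows hHpos.le hc1 hc2
      rw [← hH'] at hw1 hw2
      unfold density
      have h7 : 0 ≤ lam j ω * Y := by positivity
      have h8 : lam j ω * Y ≤ x := (mul_le_of_le_one_left hYpos.le hj1).trans hY2
      have hℓ1 : L ≤ Real.log (x + lam j ω * Y) := hLx.trans (Real.log_le_log hx0 (by linarith))
      have hℓ2 : Real.log (x + lam j ω * Y) ≤ L + 2 := by
        have h6 : Real.log (x + lam j ω * Y) ≤ Real.log (2 * x) := Real.log_le_log (by linarith) (by linarith)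
        rw [Real.log_mul (by norm_num) hx0.ne'] at h6
        have := Real.log_two_lt_d9
        linarith
      have hCH : C * L ≤ H := le_trans (by gcongr) hH1
      apply dens_cmp hL0 hHpos hH'0 (Nat.cast_nonneg _) _ (by linarith) (by linarith) hC0 hCH
      · -- the ratio
        obtain ⟨ℓ, hℓ⟩ : ∃ ℓ, ℓ = Real.log (x + lam j ω * Y) := ⟨_, rfl⟩
        rw [← hℓ] at hℓ1 hℓ2 ⊢
        have hLε : 2 + 1 ≤ ε₁ / 16 * L := by
          have h6 : 16 * (2 + 1) / ε₁ ≤ L := by linarith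
          rw [div_le_iff₀ h10] at h6
          linarith
        have hHL : L ≤ H := by linarith
        rw [div_sub_one (by positivity), abs_div, abs_of_pos (show 0 < H * L by positivity), div_le_iff₀ (by positivity),
          abs_le]
        constructor
        · -- `ℓ H' - H L ≥ L (H' - H) ≥ - L`
          have h6 : L * H' ≤ ℓ * H' := by gcongr
          have h7 : L * (H - 1) ≤ L * H' := by gcongr; linarith
          have h8 : L ≤ ε₁ / 16 * (H * L) := by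
            have h9 : 1 ≤ ε₁ / 16 * H := by
              have : ε₁ / 16 * L ≤ ε₁ / 16 * H := by gcongr
              linarith
            have h10 : 1 * L ≤ (ε₁ / 16 * H) * L := mul_le_mul_of_nonneg_right h9 hL0.le
            linarith
          linarith
        · have h6 : ℓ * H' ≤ (L + 2) * H := by gcongr
          have h8 : 2 * H ≤ ε₁ / 16 * (H * L) := by
            have h9 : 2 * H ≤ (ε₁ / 16 * L) * H := by
              gcongr
              linarith
            linarith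
          linarith
      · have e1 : (primesIn (x + lam j ω * Y) H : ℝ) ≤ MX.pc (S + ⌊lam j ω * Y'⌋₊) H' + 3 := by exact_mod_cast hw1
        have e2 : (MX.pc (S + ⌊lam j ω * Y'⌋₊) H' : ℝ) ≤ primesIn (x + lam j ω * Y) H + 3 := by exact_mod_cast hw2
        rw [abs_le]
        constructor <;> linarith
    have hsum : |∑ j ∈ range m, density (x + lam j ω * Y) H - V| ≤ 6 / C * m + ε₁ / 16 * V := by
      rw [hV, ← Finset.sum_sub_distrib]
      refine (Finset.abs_sum_le_sum_abs _ _).trans ((Finset.sum_le_sum hterm).trans (le_of_eq ?_))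
      rw [Finset.sum_add_distrib, Finset.sum_const, Finset.card_range, nsmul_eq_mul, ← Finset.mul_sum]
      ring
    have h6 : 6 / C ≤ ε₁ / 4 := by
      rw [div_le_iff₀ hC0]
      rw [div_le_iff₀ h10] at hCε
      linarith
    have h7 : 6 / C * (m : ℝ) ≤ ε₁ / 4 * m := by gcongr
    have h8 : ε₁ / 16 * V ≤ ε₁ / 16 * (2 * m) := by gcongr
    have h9 : ε₁ * (m : ℝ) ≤ ε * m := by gcongr
    have k1 := abs_le.1 hmain
    have k2 := abs_le.1 hsum
    have h13 : 0 ≤ ε₁ * (m : ℝ) := by positivity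
    rw [abs_le]
    constructor
    · linarith [k1.1, k2.1]
    · linarith [k1.2, k2.2]

open Classical in
/-- **a positive proportion of the random points is followed by a prime** -/
theorem samp2 {K : ℝ} (hK : 0 < K) : ∃ c C : ℝ, 0 < c ∧ 0 < C ∧ ∀ᵐ ω ∂P, ∀ᶠ x : ℝ in atTop, ∀ Y : ℝ,
    x ^ (0.584 : ℝ) ≤ Y → Y ≤ x → ∀ m : ℕ, C * Real.log x ≤ m →
      c * m ≤ ((range m).filter (fun j => ∃ p : ℕ, p.Prime ∧ x + lam j ω * Y < p ∧
        (p : ℝ) < x + lam j ω * Y + K * Real.log (x + lam j ω * Y))).card := by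
  obtain ⟨c, A, hc, hA, hfam⟩ := fam2 hm hi hu (show 0 < K / 2 by positivity)
  refine ⟨c, 2 * A, hc, by positivity, ?_⟩
  filter_upwards [hfam, ae_Icc hm hu] with ω hω hI
  have tF : Tendsto (fun x : ℝ => ⌊x⌋₊ + 3) atTop atTop :=
    (tendsto_add_atTop_nat 3).comp tendsto_nat_floor_atTop
  have hev1 := tF.eventually hω
  have hev3 : ∀ᶠ x : ℝ in atTop, 4 ≤ (x : ℝ) ^ (0.0001 : ℝ) :=
    (tendsto_rpow_atTop (show (0 : ℝ) < 0.0001 by norm_num)).eventually_ge_atTop 4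
  filter_upwards [hev1, hev3, eventually_ge_atTop (4 : ℝ),
    Real.tendsto_log_atTop.eventually_ge_atTop (2 * (K / 2 + 3) / K + 2)] with x h1 h3 h4 h5 Y hY1 hY2 m hmm
  have hx0 : 0 < x := by linarith
  have hYpos : 0 < Y := lt_of_lt_of_le (by positivity) hY1
  obtain ⟨S, hS⟩ : ∃ S, S = ⌊x⌋₊ + 3 := ⟨_, rfl⟩
  obtain ⟨Y', hY'⟩ : ∃ Y', Y' = ⌊Y⌋₊ := ⟨_, rfl⟩
  rw [← hS] at h1
  have hSx : (S : ℝ) ≤ x + 3 := by
    have := Nat.floor_le hx0.le
    rw [hS]
    push_cast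
    linarith
  have hSx2 : x < S := by
    have := Nat.lt_floor_add_one x
    rw [hS]
    push_cast
    linarith
  have hS0 : (0 : ℝ) < S := by linarith
  have hYY : (Y' : ℝ) ≤ Y := by rw [hY']; exact Nat.floor_le hYpos.le
  have hYY2 : Y < Y' + 1 := by rw [hY']; exact Nat.lt_floor_add_one Y
  have hlogS : Real.log (S : ℝ) ≤ Real.log x + 1 := by
    have h6 : Real.log (S : ℝ) ≤ Real.log (2 * x) := Real.log_le_log hS0 (by linarith)
    rw [Real.log_mul (by norm_num) hx0.ne'] at h6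
    have := Real.log_two_lt_d9
    linarith
  have hlogx : 2 ≤ Real.log x := by
    have : 0 ≤ 2 * (K / 2 + 3) / K := by positivity
    linarith
  have c1 : (S : ℝ) ^ (0.5839 : ℝ) ≤ Y' := by
    have h6 : (S : ℝ) ^ (0.5839 : ℝ) ≤ 2 * x ^ (0.5839 : ℝ) := by
      calc (S : ℝ) ^ (0.5839 : ℝ) ≤ (2 * x) ^ (0.5839 : ℝ) := by
            apply Real.rpow_le_rpow hS0.le (by linarith) (by norm_num)
        _ = 2 ^ (0.5839 : ℝ) * x ^ (0.5839 : ℝ) := Real.mul_rpow (by norm_num) hx0.le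
        _ ≤ 2 ^ (1 : ℝ) * x ^ (0.5839 : ℝ) := by
            gcongr
            · norm_num
            · norm_num
        _ = _ := by rw [Real.rpow_one]
    have h7 : 4 * x ^ (0.5839 : ℝ) ≤ Y := by
      refine le_trans ?_ hY1
      calc 4 * x ^ (0.5839 : ℝ) ≤ x ^ (0.0001 : ℝ) * x ^ (0.5839 : ℝ) := by gcongr
        _ = _ := by rw [← Real.rpow_add hx0]; norm_num
    have h8 : 1 ≤ x ^ (0.5839 : ℝ) := Real.one_le_rpow (by linarith) (by norm_num)
    linarith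
  have c2 : Y' ≤ S := by
    rw [hY', hS]
    have := Nat.floor_le_floor hY2
    omega
  have c3 : A * Real.log S ≤ m := by
    refine le_trans ?_ hmm
    calc A * Real.log S ≤ A * (Real.log x + 1) := by gcongr
      _ ≤ A * (2 * Real.log x) := by gcongr; linarith
      _ = _ := by ring
  have hmain := h1 Y' c1 c2 m c3
  refine hmain.trans ?_
  have hsub : (range m).filter (fun j => 1 ≤ MX.pc (S + ⌊lam j ω * Y'⌋₊) ⌊K / 2 * Real.log S⌋₊) ⊆
      (range m).filter (fun j => ∃ p : ℕ, p.Prime ∧ x + lam j ω * Y < p ∧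
        (p : ℝ) < x + lam j ω * Y + K * Real.log (x + lam j ω * Y)) := by
    intro j hj
    rw [mem_filter] at hj ⊢
    refine ⟨hj.1, ?_⟩
    obtain ⟨hj0, hj1⟩ := hI j
    have hpos := hj.2
    unfold MX.pc at hpos
    obtain ⟨p, hp⟩ := Finset.card_pos.1 (by omega : 0 < ((Ioc (S + ⌊lam j ω * Y'⌋₊) (S + ⌊lam j ω * Y'⌋₊ +
      ⌊K / 2 * Real.log S⌋₊)).filter Nat.Prime).card)
    rw [mem_filter, mem_Ioc] at hp
    obtain ⟨⟨hp1, hp2⟩, hp3⟩ := hp
    obtain ⟨hc1, hc2⟩ := close (x := x) (Y := Y) hx0.le hYpos.le hj0 hj1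
    rw [← hY'] at hc1 hc2
    have e1 : ((S + ⌊lam j ω * Y'⌋₊ : ℕ) : ℝ) = ((⌊x⌋₊ + ⌊lam j ω * Y'⌋₊ : ℕ) : ℝ) + 3 := by
      rw [hS]
      push_cast
      ring
    have hp1' : ((S + ⌊lam j ω * Y'⌋₊ : ℕ) : ℝ) < p := by exact_mod_cast hp1
    have hp2' : (p : ℝ) ≤ ((S + ⌊lam j ω * Y'⌋₊ : ℕ) : ℝ) + ⌊K / 2 * Real.log S⌋₊ := by exact_mod_cast hp2
    rw [e1] at hp1' hp2'
    have h7 : 0 ≤ lam j ω * Y := by positivity
    refine ⟨p, hp3, by linarith, ?_⟩
    have hfl : (⌊K / 2 * Real.log S⌋₊ : ℝ) ≤ K / 2 * Real.log S := Nat.floor_le (by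
      have : 0 ≤ Real.log (S : ℝ) := Real.log_nonneg (by linarith)
      positivity)
    have hℓ : Real.log x ≤ Real.log (x + lam j ω * Y) := Real.log_le_log hx0 (by linarith)
    have h8 : K / 2 * Real.log S + 3 < K * Real.log x := by
      have h9 : 2 * (K / 2 + 3) / K < Real.log x := by linarith
      rw [div_lt_iff₀ hK] at h9
      have h10 : K / 2 * Real.log S ≤ K / 2 * (Real.log x + 1) := by gcongr
      linarith
    have h9 : K * Real.log x ≤ K * Real.log (x + lam j ω * Y) := by gcongr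
    linarith
  exact_mod_cast Finset.card_le_card hsub

/-- **the averages are bounded in all short intervals** -/
theorem samp3 {θ K : ℝ} (hθ : 0 < θ) (hK : 0 < K) : ∃ C : ℝ, 0 < C ∧ ∀ᵐ ω ∂P, ∀ᶠ x : ℝ in atTop, ∀ Y : ℝ,
    x ^ θ ≤ Y → Y ≤ x → ∀ H : ℝ, K * Real.log x ≤ H → H ≤ x → ∀ m : ℕ, 4 * Real.log x ≤ m →
      ∑ j ∈ range m, density (x + lam j ω * Y) H ≤ C * m := by
  obtain ⟨C, hC, hfam⟩ := fam3 hm hi hu (show 0 < θ / 2 by positivity) (show 0 < K / 2 by positivity)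
  refine ⟨3 * C + 9 / K, by positivity, ?_⟩
  filter_upwards [hfam, ae_Icc hm hu] with ω hω hI
  have tF : Tendsto (fun x : ℝ => ⌊x⌋₊) atTop atTop := tendsto_nat_floor_atTop
  have hev1 := tF.eventually hω
  have hev2 : ∀ᶠ x : ℝ in atTop, 2 ≤ x ^ (θ / 2) :=
    (tendsto_rpow_atTop (show 0 < θ / 2 by positivity)).eventually_ge_atTop 2
  filter_upwards [hev1, hev2, eventually_ge_atTop (4 : ℝ),
    Real.tendsto_log_atTop.eventually_ge_atTop (2 / K + 3)] with x h1 h3 h4 h5 Y hY1 hY2 H hH1 hH2 m hmm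
  have hx0 : 0 < x := by linarith
  have hYpos : 0 < Y := lt_of_lt_of_le (by positivity) hY1
  have hm0 : (0 : ℝ) ≤ m := Nat.cast_nonneg m
  obtain ⟨S, hS⟩ : ∃ S, S = ⌊x⌋₊ := ⟨_, rfl⟩
  obtain ⟨Y', hY'⟩ : ∃ Y', Y' = ⌊Y⌋₊ := ⟨_, rfl⟩
  obtain ⟨H', hH'⟩ : ∃ H', H' = ⌊H⌋₊ := ⟨_, rfl⟩
  rw [← hS] at h1
  have hlogK : 2 / K ≤ Real.log x := by linarith
  have hKx : 2 ≤ K * Real.log x := by
    rw [div_le_iff₀ hK] at hlogK
    linarith
  have hHpos : 0 < H := by linarith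
  have hSx : (S : ℝ) ≤ x := by rw [hS]; exact Nat.floor_le hx0.le
  have hSx2 : x < S + 1 := by rw [hS]; exact Nat.lt_floor_add_one x
  have hYY : (Y' : ℝ) ≤ Y := by rw [hY']; exact Nat.floor_le hYpos.le
  have hYY2 : Y < Y' + 1 := by rw [hY']; exact Nat.lt_floor_add_one Y
  have hHH : (H' : ℝ) ≤ H := by rw [hH']; exact Nat.floor_le hHpos.le
  have hHH2 : H < H' + 1 := by rw [hH']; exact Nat.lt_floor_add_one H
  have hS3 : (3 : ℝ) < S := by linarith
  have hS0 : (0 : ℝ) < S := by linarith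
  obtain ⟨L, hL⟩ : ∃ L, L = Real.log (S : ℝ) := ⟨_, rfl⟩
  have hLx : L ≤ Real.log x := by rw [hL]; exact Real.log_le_log hS0 hSx
  have hLx2 : Real.log x ≤ L + 1 := by
    have h6 : Real.log x ≤ Real.log (2 * S) := Real.log_le_log hx0 (by linarith)
    rw [Real.log_mul (by norm_num) hS0.ne', ← hL] at h6
    have := Real.log_two_lt_d9
    linarith
  have hL2 : 2 ≤ L := by
    have : 0 < 2 / K := by positivity
    linarith
  have hL0 : 0 < L := by linarith
  have c1 : (S : ℝ) ^ (θ / 2) ≤ Y' := by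
    have h6 : (S : ℝ) ^ (θ / 2) ≤ x ^ (θ / 2) := by gcongr
    have h7 : x ^ θ = x ^ (θ / 2) * x ^ (θ / 2) := by
      rw [← Real.rpow_add hx0]
      congr 1
      ring
    have h8 : 2 * x ^ (θ / 2) ≤ Y := by
      refine le_trans ?_ hY1
      rw [h7]
      gcongr
    linarith
  have c2 : Y' ≤ S := by
    rw [hY', hS]
    exact Nat.floor_le_floor hY2
  have c3 : K / 2 * Real.log S ≤ H' := by
    rw [← hL]
    have : K / 2 * L ≤ K / 2 * Real.log x := by gcongr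
    linarith
  have c4 : H' ≤ S := by
    rw [hH', hS]
    exact Nat.floor_le_floor hH2
  have c5 : 4 * Real.log S ≤ m := by
    rw [← hL]
    linarith
  have hmain := h1 Y' c1 c2 H' c3 c4 m c5
  rw [← hL] at hmain
  have hH'0 : (0 : ℝ) < H' := by linarith
  have hterm : ∀ j ∈ range m, density (x + lam j ω * Y) H ≤
      3 * (MX.pc (S + ⌊lam j ω * Y'⌋₊) H' * L / H') + 9 / K := by
    intro j _
    obtain ⟨hj0, hj1⟩ := hI j
    obtain ⟨hc1, hc2⟩ := close (x := x) (Y := Y) hx0.le hYpos.le hj0 hj1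
    rw [← hS, ← hY'] at hc1 hc2
    obtain ⟨hw1, _⟩ := windows hHpos.le hc1 hc2
    rw [← hH'] at hw1
    unfold density
    have h7 : 0 ≤ lam j ω * Y := by positivity
    have h8 : lam j ω * Y ≤ x := (mul_le_of_le_one_left hYpos.le hj1).trans hY2
    have hℓ1 : 0 ≤ Real.log (x + lam j ω * Y) := Real.log_nonneg (by linarith)
    have hℓ2 : Real.log (x + lam j ω * Y) ≤ L + 2 := by
      have h6 : Real.log (x + lam j ω * Y) ≤ Real.log (2 * x) := Real.log_le_log (by linarith) (by linarith)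
      rw [Real.log_mul (by norm_num) hx0.ne'] at h6
      have := Real.log_two_lt_d9
      linarith
    have e1 : (primesIn (x + lam j ω * Y) H : ℝ) ≤ MX.pc (S + ⌊lam j ω * Y'⌋₊) H' + 3 := by exact_mod_cast hw1
    obtain ⟨q, hq⟩ : ∃ q : ℝ, q = MX.pc (S + ⌊lam j ω * Y'⌋₊) H' := ⟨_, rfl⟩
    rw [← hq] at e1 ⊢
    have hq0 : 0 ≤ q := by rw [hq]; exact Nat.cast_nonneg _
    have hℓ3 : Real.log (x + lam j ω * Y) ≤ 3 * L := by linarith
    calc primesIn (x + lam j ω * Y) H * Real.log (x + lam j ω * Y) / H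
        ≤ (q + 3) * (3 * L) / H := by gcongr
      _ = 3 * (q * L / H) + 9 * L / H := by ring
      _ ≤ 3 * (q * L / H') + 9 * L / (K * L) := by
          have : K * L ≤ H := le_trans (by gcongr) hH1
          gcongr
      _ = _ := by
          congr 1
          field_simp
  calc ∑ j ∈ range m, density (x + lam j ω * Y) H
      ≤ ∑ j ∈ range m, (3 * (MX.pc (S + ⌊lam j ω * Y'⌋₊) H' * L / H') + 9 / K) := Finset.sum_le_sum hterm
    _ = 3 * ∑ j ∈ range m, (MX.pc (S + ⌊lam j ω * Y'⌋₊) H' * L / H') + 9 / K * m := by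
        rw [Finset.sum_add_distrib, Finset.sum_const, Finset.card_range, nsmul_eq_mul, ← Finset.mul_sum]
        ring
    _ ≤ 3 * (C * m) + 9 / K * m := by gcongr
    _ = _ := by ring

end

end Pool.Agent.U26Z.EX
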