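import Pool.Agent.U26Z.EX.Em2

set_option autoImplicit false

/-!
# Exponential tails of the maximal density, uniformly in the level
-/

namespace Pool.Agent.U26Z.EX

open Finset Filter Topology Pool.Agent.U26Z.MX

/-- Jensen's inequality for the exponential function -/
theorem jensen_exp (f : ℕ → ℝ) (a L : ℕ) (hL : 1 ≤ L) {s v : ℝ} (hs : 0 ≤ s)
    (h : v * L ≤ ∑ m ∈ Ico a (a + L), f m) :
    Real.exp (s * v) * L ≤ ∑ m ∈ Ico a (a + L), Real.exp (s * f m) := by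
  have hL0 : (0 : ℝ) < L := by exact_mod_cast hL
  have hcard : (Ico a (a + L)).card = L := by rw [Nat.card_Ico, Nat.add_sub_cancel_left]
  have h5 := convexOn_exp.map_sum_le (t := Ico a (a + L)) (w := fun _ => 1 / (L : ℝ))
    (p := fun m => s * f m) (fun _ _ => by positivity)
    (by rw [Finset.sum_const, hcard, nsmul_eq_mul]; field_simp) (fun _ _ => Set.mem_univ _)
  simp only [smul_eq_mul, ← Finset.mul_sum] at h5
  have h6 : s * v ≤ 1 / (L : ℝ) * (s * ∑ m ∈ Ico a (a + L), f m) := by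
    rw [div_mul_eq_mul_div, one_mul, le_div_iff₀ hL0]
    calc s * v * L = s * (v * L) := by ring
      _ ≤ _ := by gcongr
  have h7 := (Real.exp_le_exp.2 h6).trans h5
  rw [div_mul_eq_mul_div, one_mul, le_div_iff₀ hL0] at h7
  exact h7

open Classical in
/-- **exponential tails, uniformly in the level `u`** -/
theorem tail_unif {θ K : ℝ} (hθ : 0 < θ) (hK : 0 < K) : ∃ c C : ℝ, 0 < c ∧ 0 < C ∧ ∃ X₀ : ℕ, ∀ X : ℕ, X₀ ≤ X →
    ∀ Y : ℕ, (X : ℝ) ^ θ ≤ Y → Y ≤ X → ∀ u : ℝ, ((Ex K u X Y).card : ℝ) ≤ C * Real.exp (-(c * u)) * Y := by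
  obtain ⟨θ₂, hθ₂⟩ : ∃ θ₂, θ₂ = min (min θ 1) (2 * K) := ⟨_, rfl⟩
  have hθ₂0 : 0 < θ₂ := by rw [hθ₂]; exact lt_min (lt_min hθ one_pos) (by linarith)
  have hθ₂1 : θ₂ ≤ 1 := by rw [hθ₂]; exact (min_le_left _ _).trans (min_le_right _ _)
  have hθ₂θ : θ₂ ≤ θ := by rw [hθ₂]; exact (min_le_left _ _).trans (min_le_left _ _)
  have hθ₂K : θ₂ ≤ 2 * K := by rw [hθ₂]; exact min_le_right _ _
  obtain ⟨K₁, hK₁⟩ : ∃ K₁, K₁ = θ₂ / 4 := ⟨_, rfl⟩
  have hK₁0 : 0 < K₁ := by rw [hK₁]; positivity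
  obtain ⟨s₀, hs₀, X₁, hem⟩ := em_base hθ₂0 hθ₂1
  obtain ⟨X₂, hred⟩ := reduce hθ hK₁0 one_pos le_rfl
  obtain ⟨s, hs⟩ : ∃ s, s = min s₀ 1 := ⟨_, rfl⟩
  have hs0 : 0 < s := by rw [hs]; exact lt_min hs₀ one_pos
  have hs1 : s ≤ 1 := by rw [hs]; exact min_le_right _ _
  have hss : s ≤ s₀ := by rw [hs]; exact min_le_left _ _
  have tN : Tendsto (fun X : ℕ => (X : ℝ)) atTop atTop := tendsto_natCast_atTop_atTop
  have tL : Tendsto (fun X : ℕ => Real.log (X : ℝ)) atTop atTop := Real.tendsto_log_atTop.comp tN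
  have hev1 : ∀ᶠ X : ℕ in atTop, 1 ≤ K₁ * Real.log X := (tL.const_mul_atTop hK₁0).eventually_ge_atTop 1
  have hev2 : ∀ᶠ X : ℕ in atTop, K₁ * Real.log X ≤ (X : ℝ) ^ (θ₂ / 2) := by
    have h1 := ((isLittleO_log_rpow_atTop (show 0 < θ₂ / 2 by positivity)).comp_tendsto tN).bound
      (by positivity : (0 : ℝ) < 1 / K₁)
    filter_upwards [h1, tL.eventually_ge_atTop 1] with X h2 h3
    simp only [Function.comp_def] at h2
    rw [Real.norm_of_nonneg (by positivity), Real.norm_of_nonneg (by positivity)] at h2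
    calc K₁ * Real.log X ≤ K₁ * (1 / K₁ * (X : ℝ) ^ (θ₂ / 2)) := by gcongr
      _ = _ := by field_simp
  obtain ⟨X₃, hX₃⟩ := eventually_atTop.1 (hev1.and hev2)
  obtain ⟨c, hc⟩ : ∃ c, c = s * (K₁ / 8) := ⟨_, rfl⟩
  have hc0 : 0 < c := by rw [hc]; positivity
  refine ⟨c, 97 + Real.exp (c * (3 / θ)), hc0, by positivity, max (max X₁ X₂) (max X₃ 2), fun X hX Y hY1 hY2 u => ?_⟩
  have hXX1 : X₁ ≤ X := (le_max_left _ _).trans ((le_max_left _ _).trans hX)
  have hXX2 : X₂ ≤ X := (le_max_right _ _).trans ((le_max_left _ _).trans hX)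
  obtain ⟨h1, h2⟩ := hX₃ X ((le_max_left _ _).trans ((le_max_right _ _).trans hX))
  have hX2 : 2 ≤ X := (le_max_right _ _).trans ((le_max_right _ _).trans hX)
  have hX1 : (1 : ℝ) ≤ X := by exact_mod_cast (by omega : 1 ≤ X)
  have hX0 : (0 : ℝ) < X := by linarith
  have hY0 : (0 : ℝ) ≤ Y := Nat.cast_nonneg Y
  rcases le_or_gt u (3 / θ) with hu | hu
  · refine (Ex_card_le _ _ _ _).trans ?_
    apply le_mul_of_one_le_left hY0
    calc (1 : ℝ) ≤ Real.exp (c * (3 / θ)) * Real.exp (-(c * u)) := by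
          rw [← Real.exp_add]
          apply Real.one_le_exp
          nlinarith
      _ ≤ _ := by
          gcongr
          linarith
  · have h3 := hred X hXX2 Y hY1 hY2 u hu
    obtain ⟨v, hv⟩ : ∃ v, v = u * K₁ / (1 + 1) ^ 3 := ⟨_, rfl⟩
    rw [← hv] at h3
    obtain ⟨L, hL⟩ : ∃ L, L = Real.log (X : ℝ) := ⟨_, rfl⟩
    have hexp := hem X hXX1 X le_rfl (2 * Y) (by
      push_cast
      have := (Real.rpow_le_rpow_of_exponent_le hX1 hθ₂θ).trans hY1
      linarith)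
    rw [← hK₁] at hexp
    rw [← hL] at h1 h2 h3 hexp
    obtain ⟨H₀, hH₀⟩ : ∃ H₀, H₀ = ⌊K₁ * L⌋₊ := ⟨_, rfl⟩
    rw [← hH₀] at h3 hexp
    have hL0 : 0 < L := by
      by_contra hcon
      push Not at hcon
      nlinarith
    have hH1 : 1 ≤ H₀ := by rw [hH₀]; exact Nat.le_floor (by exact_mod_cast h1)
    have hHK : (H₀ : ℝ) ≤ K₁ * L := by rw [hH₀]; exact Nat.floor_le (by positivity)
    have hXp : ∀ r : ℝ, (X : ℝ) ^ r = Real.exp (r * L) := fun r => by
      rw [Real.rpow_def_of_pos hX0, ← hL, mul_comm]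
    have hHX : H₀ ≤ X := by
      have h4 : (H₀ : ℝ) ≤ X := by
        refine hHK.trans (h2.trans ?_)
        calc (X : ℝ) ^ (θ₂ / 2) ≤ (X : ℝ) ^ (1 : ℝ) := Real.rpow_le_rpow_of_exponent_le hX1 (by linarith)
          _ = X := Real.rpow_one _
      exact_mod_cast h4
    obtain ⟨g, hg⟩ : ∃ g : ℕ → ℝ, g = fun m => Real.exp (s * MX.pc m H₀) := ⟨_, rfl⟩
    have hg0 : ∀ m, 0 ≤ g m := fun m => by rw [hg]; exact (Real.exp_pos _).le
    have hEx : ((Ex K u X Y).card : ℝ) ≤ (((Ioc X (X + Y)).filter (fun n => ∃ H : ℕ, 1 ≤ H ∧ H ≤ Y ∧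
        v * ((H : ℝ) + H₀) ≤ (H₀ : ℝ) * MX.pc n H)).card : ℝ) := by
      have h4 : Ex K u X Y ⊆ Ex (2 * K₁ / 1) u X Y := by
        intro n hn
        unfold Ex at hn ⊢
        rw [mem_filter] at hn ⊢
        obtain ⟨h5, H, h6, h7⟩ := hn
        refine ⟨h5, H, le_trans ?_ h6, h7⟩
        have h8 : 0 ≤ Real.log (n : ℝ) := Real.log_natCast_nonneg n
        apply mul_le_mul_of_nonneg_right _ h8
        rw [hK₁]
        linarith
      exact_mod_cast Finset.card_le_card (h4.trans h3)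
    refine hEx.trans ?_
    obtain ⟨S, hS⟩ : ∃ S, S = (Ioc X (X + Y)).filter (fun n => ∃ H : ℕ, 1 ≤ H ∧ H ≤ Y ∧
        v * ((H : ℝ) + H₀) ≤ (H₀ : ℝ) * MX.pc n H) := ⟨_, rfl⟩
    rw [← hS]
    have hu0 : 0 < u := lt_trans (by positivity) hu
    have hv0 : 0 < v := by rw [hv]; positivity
    -- the image of the bad set
    have h4 : S.card ≤ ((Ico (X + 2 - H₀) (X + 1 + 2 * Y)).filter (fun a => ∃ L, 1 ≤ L ∧ a + L ≤ X + 1 + 2 * Y ∧
        Real.exp (s * v) * L ≤ ∑ m ∈ Ico a (a + L), g m)).card := by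
      apply Finset.card_le_card_of_injOn (fun n => n + 1 - H₀)
      · intro n hn
        rw [mem_coe, hS, mem_filter, mem_Ioc] at hn
        obtain ⟨⟨h5, h6⟩, H, hH, hHY, h7⟩ := hn
        rw [mem_coe, mem_filter, mem_Ico]
        refine ⟨⟨?_, ?_⟩, H + H₀ - 1, ?_, ?_, ?_⟩
        · show X + 2 - H₀ ≤ n + 1 - H₀
          omega
        · show n + 1 - H₀ < X + 1 + 2 * Y
          omega
        · omega
        · show n + 1 - H₀ + (H + H₀ - 1) ≤ X + 1 + 2 * Y
          omega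
        · show Real.exp (s * v) * ((H + H₀ - 1 : ℕ) : ℝ) ≤ ∑ m ∈ Ico (n + 1 - H₀) (n + 1 - H₀ + (H + H₀ - 1)), g m
          rw [hg]
          apply jensen_exp (fun m => (MX.pc m H₀ : ℝ)) _ _ (by omega) hs0.le
          have h8 := window n H H₀ (by omega) hH1
          have h9 : ((H + H₀ - 1 : ℕ) : ℝ) ≤ (H : ℝ) + H₀ := by
            have : H + H₀ - 1 ≤ H + H₀ := Nat.sub_le _ _
            exact_mod_cast this
          calc v * ((H + H₀ - 1 : ℕ) : ℝ) ≤ v * ((H : ℝ) + H₀) := by gcongr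
            _ ≤ (H₀ : ℝ) * MX.pc n H := h7
            _ ≤ _ := by exact_mod_cast h8
      · intro n hn n' hn' h
        rw [mem_coe, hS, mem_filter, mem_Ioc] at hn hn'
        simp only at h
        omega
    have h5 := maxi g hg0 (lam := Real.exp (s * v)) (X + 1 + 2 * Y) (X + 1 + 2 * Y - (X + 2 - H₀)) (X + 2 - H₀) (by omega)
    -- the sum of `g`
    have h6 : ∑ m ∈ Ico (X + 2 - H₀) (X + 1 + 2 * Y), g m ≤ 97 * Y := by
      have h7 : ∑ m ∈ Ico (X + 2 - H₀) (X + 1 + 2 * Y), g m ≤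
          ∑ m ∈ Ioc (X - H₀) X, g m + ∑ m ∈ Ioc X (X + 2 * Y), g m := by
        rw [← Finset.sum_union]
        · apply Finset.sum_le_sum_of_subset_of_nonneg
          · intro m hm
            rw [mem_Ico] at hm
            rw [mem_union, mem_Ioc, mem_Ioc]
            omega
          · intro m _ _
            exact hg0 m
        · rw [Finset.disjoint_left]
          intro m hm hm2
          rw [mem_Ioc] at hm hm2
          omega
      have h8 : ∑ m ∈ Ioc X (X + 2 * Y), g m ≤ 48 * (2 * Y) := by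
        refine le_trans (Finset.sum_le_sum fun m _ => ?_) (le_trans hexp (by push_cast; rfl))
        rw [hg]
        apply Real.exp_le_exp.2
        have : (0 : ℝ) ≤ MX.pc m H₀ := Nat.cast_nonneg _
        exact mul_le_mul_of_nonneg_right hss this
      have h9 : ∑ m ∈ Ioc (X - H₀) X, g m ≤ Y := by
        have h10 : ∀ m, g m ≤ (X : ℝ) ^ (θ₂ / 4) := by
          intro m
          rw [hg, hXp]
          apply Real.exp_le_exp.2
          have h11 : (MX.pc m H₀ : ℝ) ≤ H₀ := by exact_mod_cast pc_le m H₀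
          calc s * (MX.pc m H₀ : ℝ) ≤ 1 * H₀ := by gcongr
            _ ≤ K₁ * L := by linarith
            _ = θ₂ / 4 * L := by rw [hK₁]
        calc ∑ m ∈ Ioc (X - H₀) X, g m ≤ ∑ _m ∈ Ioc (X - H₀) X, (X : ℝ) ^ (θ₂ / 4) := Finset.sum_le_sum fun m _ => h10 m
          _ = (H₀ : ℝ) * (X : ℝ) ^ (θ₂ / 4) := by
              rw [Finset.sum_const, Nat.card_Ioc, nsmul_eq_mul, show X - (X - H₀) = H₀ by omega]
          _ ≤ (X : ℝ) ^ (θ₂ / 2) * (X : ℝ) ^ (θ₂ / 4) := by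
              apply mul_le_mul_of_nonneg_right (hHK.trans h2) (by positivity)
          _ = (X : ℝ) ^ (3 * θ₂ / 4) := by rw [← Real.rpow_add hX0]; congr 1; ring
          _ ≤ (X : ℝ) ^ θ := Real.rpow_le_rpow_of_exponent_le hX1 (by linarith)
          _ ≤ Y := hY1
      linarith
    have h7 : Real.exp (s * v) * S.card ≤ 97 * Y := by
      calc Real.exp (s * v) * S.card ≤ Real.exp (s * v) * (((Ico (X + 2 - H₀) (X + 1 + 2 * Y)).filter (fun a =>
          ∃ L, 1 ≤ L ∧ a + L ≤ X + 1 + 2 * Y ∧ Real.exp (s * v) * L ≤ ∑ m ∈ Ico a (a + L), g m)).card : ℝ) := by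
            apply mul_le_mul_of_nonneg_left _ (Real.exp_pos _).le
            exact_mod_cast h4
        _ ≤ _ := h5.trans h6
    have h8 : s * v = c * u := by rw [hv, hc]; ring
    rw [h8] at h7
    have h9 : (S.card : ℝ) = Real.exp (-(c * u)) * (Real.exp (c * u) * S.card) := by
      rw [← mul_assoc, ← Real.exp_add]
      simp
    rw [h9]
    calc Real.exp (-(c * u)) * (Real.exp (c * u) * S.card) ≤ Real.exp (-(c * u)) * (97 * Y) := by gcongr
      _ = 97 * Real.exp (-(c * u)) * Y := by ring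
      _ ≤ _ := by
          gcongr
          have := Real.exp_pos (c * (3 / θ))
          linarith

end Pool.Agent.U26Z.EX
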